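import Pool.Agent.H66.UP.CS
import Pool.Agent.H1.PU.Jpl
import Pool.Agent.H44.NR.Pdj
import Pool.Agent.H47.RJ.CNT
import Pool.Agent.H79.PJ.RIter

/-!
# [H66 UX LEO] UD on the sphere, realization: exactness

`fs_pow`. PROOF. `EqAt F x → EqAt f x` for `F = f^[k]`, `k ≥ 1`: given `ε`, by uniform continuity (`ch_uc`, H47/RJ/CHB) of `f^[j]`, `j < k` (minimum over `range k`), there is `δ > 0` with `chord a b < δ → chord (f^[j] a) (f^[j] b) < ε` for all `j < k`; apply `EqAt F x` with `δ`: for `n = k * m + j`, `j < k`, `f^[n] = f^[j] ∘ F^[m]` (`Nat.div_add_mod`, `Function.iterate_add_apply`, `Function.iterate_mul`). `FS` is the interior: monotone.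

`leo_rep`. PROOF. `F = f^[k]`, `O' = {x | chord p x < r}`, `0 < r ≤ ρ`, `O' ⊆ O` (`ch_nhds`). For `x ∈ O'`: `g x ∈ O'` (`h.contr`, `κ < 1`: `chord p (g x) ≤ κ chord p x ≤ chord p x < r`), `F (g x) = x` (`h.right`). So `O' ⊆ F '' O'`, `F^[j] '' O' ⊆ F^[j + 1] '' O'`, the sets `F^[j] '' O'` are open (`rf_it_open`) and increasing. By `exists_iter` (H79/PJ/RIter) `F = Rf v'` with `v' : E (d ^ k)`, `RatD (d ^ k) ..` (`d ^ k ≥ 2`), `JS (Rf v') = univ` by `fs_pow`.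
`jp_cov` (H1/PU/Jpl) for `v'`, `O'`: every `x` is in some `F^[j] '' O'`; compactness of the sphere (`isCompact_univ.elim_directed_cover`): `F^[j] '' O' = univ` for some `j`. `N = k * j`: for `n ≥ N` `f^[n] '' O' = f^[n - N] '' univ = univ` (`rf_surj`, H47/RJ/CNT, iterated).

`leo_s`. PROOF. In the chart `L, φ` of `gen_ch` (as in the proof of `not_pre`, H47/PS/PRE) `AR (L v)` (`ar_gen`). `JS (Rf (L v)) = univ` (`fs_conj`, H76/SU, as in `ch_s`, H66/UP/CS). `O1 = φ '' O` is open, nonempty; `per_dense` (H44/NR/Pdj) at a point of it: a periodic point `p ∈ O1`, `(Rf (L v))^[k] p = p`, `k ≥ 1`. `AR`: the first alternative is impossible (`FS` is empty), so `Rep ((Rf (L v))^[k]) p ρ κ g`. `leo_rep` for `L v`, `O1`. Go back with `iter_conj`: for `y`: `x1 ∈ O1` with `(Rf (L v))^[n] x1 = φ y`, `x1 = φ x`, `x ∈ O`, `φ ((Rf v)^[n] x) = φ y`.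
-/

set_option autoImplicit false

open Filter Topology Polynomial Metric Set MeasureTheory

namespace Pool.Agent.H66.UX

open Pool.Agent.H44.Fatou (rat rat_continuous rat_coe rat_coe_of_ne pt crit_coe)
open Pool.Agent.H32.BT Pool.Agent.H79.Eul Pool.Agent.H79.Par
open Pool.Agent.H35.EX Pool.Agent.H44.RR Pool.Agent.H56.HR Pool.Agent.H44.RC Pool.Agent.H47.RJ
open Pool.Agent.H47.NM Pool.Agent.H47.NN Pool.Agent.H44.ND Pool.Agent.H79.ES Pool.Agent.H44.RG
open Pool.Agent.H44.CP Pool.Agent.H47.PS Pool.Agent.H64.NC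
open Pool.Agent.H61.TT (gg RatD)

variable {d : ℕ} {v : E d}

theorem fs_pow {f : OnePoint ℂ → OnePoint ℂ} (hf : Continuous f) {k : ℕ} (hk : 1 ≤ k) : FS f^[k] ⊆ FS f := by
  refine interior_mono ?_
  intro x hx ε hε
  have key : ∀ K : ℕ, ∃ δ : ℝ, 0 < δ ∧ ∀ j < K, ∀ a b, chord a b < δ →
      chord (f^[j] a) (f^[j] b) < ε := by
    intro K
    induction K with
    | zero => exact ⟨1, one_pos, fun j hj => absurd hj (by omega)⟩
    | succ K ih =>
      obtain ⟨δ, hδ, h1⟩ := ih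
      obtain ⟨δ', hδ', h2⟩ := Pool.Agent.H47.RJ.ch_uc (hf.iterate K) hε
      refine ⟨min δ δ', lt_min hδ hδ', fun j hj a b hab => ?_⟩
      rcases Nat.lt_succ_iff_lt_or_eq.1 hj with h3 | rfl
      · exact h1 j h3 a b (lt_of_lt_of_le hab (min_le_left _ _))
      · exact h2 a b (lt_of_lt_of_le hab (min_le_right _ _))
  obtain ⟨δ, hδ, h1⟩ := key k
  filter_upwards [hx δ hδ] with y hy n
  have h2 : ∀ z, f^[n] z = f^[n % k] ((f^[k])^[n / k] z) := by
    intro z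
    rw [← Function.iterate_mul, ← Function.iterate_add_apply, Nat.mod_add_div]
  rw [h2, h2]
  exact h1 _ (Nat.mod_lt _ (by omega)) _ _ (hy (n / k))

theorem leo_rep (hd : 2 ≤ d) (hcop : IsCoprime (pol v.1) (pol v.2))
    (hdeg : max (pol v.1).natDegree (pol v.2).natDegree = d) (hJ : JS (Rf v) = univ) {O : Set (OnePoint ℂ)} (hO : IsOpen O)
    {p : OnePoint ℂ} (hp : p ∈ O) {k : ℕ} (hk : 1 ≤ k) {ρ κ : ℝ} {g : OnePoint ℂ → OnePoint ℂ}
    (h : Rep (Rf v)^[k] p ρ κ g) : ∃ N : ℕ, ∀ n ≥ N, ∀ y, ∃ x ∈ O, (Rf v)^[n] x = y := by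
  have hf : Continuous (Rf v) := rat_continuous hcop
  obtain ⟨V, hVc, hVd, hV⟩ := Pool.Agent.H79.PJ.exists_iter (by omega) hcop hdeg k
  have hVf : Rf V = (Rf v)^[k] := funext hV
  have hJV : JS (Rf V) = univ := by
    rw [eq_univ_iff_forall]
    intro x hx
    rw [hVf] at hx
    have h1 : x ∈ JS (Rf v) := hJ ▸ mem_univ x
    exact h1 (fs_pow hf hk hx)
  have hdk : 2 ≤ d ^ k := hd.trans (Nat.le_self_pow (by omega) d)
  have hRD : RatD (d ^ k) (pol V.1) (pol V.2) := ⟨hdk, hVc, hVd⟩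
  obtain ⟨r0, hr0, hr0O⟩ := Pool.Agent.H44.RC.ch_nhds (hO.mem_nhds hp)
  obtain ⟨r, hr⟩ : ∃ r, r = min r0 ρ := ⟨_, rfl⟩
  have hrp : 0 < r := by
    rw [hr]
    exact lt_min hr0 h.hρ
  have hrρ : r ≤ ρ := by
    rw [hr]
    exact min_le_right _ _
  have hrr0 : r ≤ r0 := by
    rw [hr]
    exact min_le_left _ _
  have hsub : {x | chord p x < r} ⊆ O := fun x hx =>
    hr0O (lt_of_lt_of_le (show chord p x < r from hx) hrr0)
  have hBo : IsOpen {x | chord p x < r} :=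
    isOpen_lt (chord_cont.comp (continuous_const.prodMk continuous_id)) continuous_const
  have hg : ∀ x, chord p x < r → chord p (g x) < r ∧ Rf V (g x) = x := by
    intro x hx
    have hxρ := lt_of_lt_of_le hx hrρ
    have h1 := h.contr x hxρ
    have h2 : κ * chord p x ≤ 1 * chord p x :=
      mul_le_mul_of_nonneg_right h.hκ1.le (chord_nn _ _)
    rw [one_mul] at h2
    refine ⟨lt_of_le_of_lt (h1.trans h2) hx, ?_⟩
    rw [hV]
    exact h.right x hxρ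
  have hmono : Monotone fun j : ℕ => (Rf V)^[j] '' {x | chord p x < r} := by
    refine monotone_nat_of_le_succ fun j => ?_
    rintro _ ⟨y, hy, rfl⟩
    refine ⟨g y, (hg y hy).1, ?_⟩
    rw [Function.iterate_succ_apply, (hg y hy).2]
  have hpB : p ∈ {x | chord p x < r} := by
    show chord p p < r
    rw [chord_zero]
    exact hrp
  obtain ⟨j, hj⟩ := isCompact_univ.elim_directed_cover
    (fun j : ℕ => (Rf V)^[j] '' {x | chord p x < r})
    (fun j => rf_it_open (by omega) hVc hVd j _ hBo) (fun x _ => by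
      obtain ⟨m, b, hb, hbx⟩ := Pool.Agent.H1.PU.jp_cov hRD hBo ⟨p, hpB, hJV ▸ mem_univ p⟩
        (x := x) (hJV ▸ mem_univ x)
      exact mem_iUnion.2 ⟨m, b, hb, hbx⟩) hmono.directed_le
  have hsurj : Function.Surjective (Rf v) := rf_surj (by omega) hcop hdeg
  refine ⟨k * j, fun n hn y => ?_⟩
  obtain ⟨y', hy'⟩ := (hsurj.iterate (n - k * j)) y
  obtain ⟨x, hx, hxy⟩ := hj (mem_univ y')
  refine ⟨x, hsub hx, ?_⟩
  have h1 : (Rf v)^[k * j] x = y' := by
    rw [Function.iterate_mul, ← hVf]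
    exact hxy
  have h2 : n = (n - k * j) + k * j := by omega
  rw [h2, Function.iterate_add_apply, h1, hy']

theorem leo_s (hd : 2 ≤ d) (hcop : IsCoprime (pol v.1) (pol v.2))
    (hdeg : max (pol v.1).natDegree (pol v.2).natDegree = d) (hup : ¬ Up v) (hJ : JS (Rf v) = univ)
    {O : Set (OnePoint ℂ)} (hO : IsOpen O) (hn : O.Nonempty) : ∃ N : ℕ, ∀ n ≥ N, ∀ y, ∃ x ∈ O, (Rf v)^[n] x = y := by
  obtain ⟨L, G, φ, K, _, hG, hGL, hLG, hconj, hK, hGen, hinf⟩ := gen_ch hd hcop hdeg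
  obtain ⟨hcop1, hdeg1, hφ⟩ := hconj v hcop hdeg
  have hup1 : ¬ Up (L v) := fun h =>
    hup (up_chart hd hG hGL hLG (fun v h3 h4 => (hconj v h3 h4).2.2) hcop hdeg h)
  have hAR := ar_gen hd hGen hinf hup1
  have hJ1 : JS (Rf (L v)) = univ := by
    rw [eq_univ_iff_forall]
    intro y
    obtain ⟨x, rfl⟩ := φ.surjective y
    intro h
    have hx : x ∈ JS (Rf v) := hJ ▸ mem_univ x
    exact hx ((Pool.Agent.H76.SU.fs_conj hK hφ x).1 h)
  obtain ⟨x0, hx0⟩ := hn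
  have hO1 : IsOpen (φ '' O) := φ.isOpenMap O hO
  obtain ⟨p, hp, k, hk, hpk⟩ := Pool.Agent.H44.NR.per_dense hd hcop1 hdeg1 (x := φ x0)
    (hJ1 ▸ mem_univ _) (hO1.mem_nhds ⟨x0, hx0, rfl⟩)
  rcases hAR k (by omega) p hpk with h1 | ⟨ρ, κ, g, hR⟩
  · have h2 : p ∈ JS (Rf (L v)) := hJ1 ▸ mem_univ p
    exact absurd h1.2 h2
  · obtain ⟨N, hN⟩ := leo_rep hd hcop1 hdeg1 hJ1 hO1 hp hk hR
    refine ⟨N, fun n hn y => ?_⟩
    obtain ⟨_, ⟨x, hx, rfl⟩, hxy⟩ := hN n hn (φ y)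
    rw [iter_conj φ hφ] at hxy
    exact ⟨x, hx, φ.injective hxy⟩

end Pool.Agent.H66.UX
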