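import Pool.Agent.H66.UP.CS
import Pool.Agent.H61.TT.Core

/-!
# [H66 UX NCR] UD on the sphere, realization: no critical relations

`ncr0`. PROOF. As `simple_rel` and `data` (H61/TT/Core, H61/TT/Data), with a finite set `S` which is not forward invariant. `I = range (n + 1)`, `p = z`, `A j = if j = n then 1 else 0`, `κ = ww'(z n) / b (z n) ^ 2`, `B j = if j < n then κ * ∏ k ∈ Ioo j n, dg (z k) else 0`.
`hη` of `push_q` is `hrel` (`LL` of `η / b ^ 2`). `Inv a b I z A B`: `deriv (V ∘ g) (z n) = V'(g (z n)) dg (z n) = 0` (chain rule, `dg (z n) = 0`), so the left side is `∑_(j < n) B j * V (z (j + 1))`; the right side is `deriv (dg * V) (z n) + ∑_(j < n) B j * dg (z j) * V (z j)`, `deriv (dg * V) (z n) = κ V (z n)` (`dg (z n) = 0`, `deriv dg (z n) = κ`), `dg (z 0) = 0`, `B (n - 1) = κ`, `B j * dg (z j) = B (j - 1)` for `1 ≤ j < n` (reindex; induction on `n` is not needed: `Finset.sum_range_succ'`/`Finset.prod_Ioo`).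
By `q_eq` (`hinj`: the points `z j`, `j ≤ n`, are distinct) `LL I z A B (fun w => dg w / (x - w)) = qf S 0 β x` for `x ∉ S`, `S = image z (range (n + 1))`, `β (z j) = A j * deriv dg (z j) + B j * dg (z j)` (define `β s = ∑ i ∈ I.filter (z i = s), ..` = `be a b I z A B`, `group_sum`, H61/TT/Data; the coefficients `A j * dg (z j)` vanish), `β (z n) = κ ≠ 0`. `push` for all but finitely many `x` as in `data` (from `push_q`, `reg_finite`); `q_sum1`, `q_sum2` give `∑ β s = 0`, `∑ s β s = 0`.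
`q = qf S 0 β` is integrable: bounded by `c / ‖y - s‖` near `s ∈ S` (`qf_near1`), by `C / ‖y‖ ^ 3` near infinity (`qf_decay`), continuous otherwise (`cut_fin` for `k = 0` with `K = fun _ => r` small gives the integrability outside the discs). So `rigid` (H61/TT/Rigid) applies with `T k = univ` (`pre univ \ univ = ∅`; `qf_meas`, `qf_diff`, `qf_zero`): `d * q y = dg y ^ 2 * q (g y)` for `y ∉ S`, `b y ≠ 0`, `g y ∉ S`.
For `y → c = z n`, `y ≠ c`: `g y → g c ∉ S` (`hnext`), so `q (g y)` is bounded, `(y - c) * dg y ^ 2 * q (g y) → 0`; `(y - c) * q y → β c = κ` (`qf_lim1`): `d κ = 0`, contradiction.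

`ncr`. PROOF. Write `z j` for the point of the plane with `(Rf v)^[j] c1 = z j`, `j ≤ n` (not `∞`: otherwise `c2 = (Rf v)^[n] c1 = ∞` by `hi`); `b (z j) ≠ 0`, `gg (z j) = z (j + 1)` for `j < n` (`rat_coe`: a pole would give `∞`); `z 0 = c1`, `z n = c2`. `hinj`, `hnext` from `not_pre` (H47/PS/PRE; `IsCrit (Rf v) c1` by `crit_of_wr`, `hJ`): the points `(Rf v)^[j] c1` are distinct; `Rf v c2 = (Rf v)^[n + 1] c1`.
`hκ`: `sim_s` (H66/UP/KS1) with `N = 2 d` and the velocities `vel_s`. `hrel`: `V` from `vel_s` for `η`: `velp_crit` at `c2`, and `V (z n) = ∑_(j < n) (∏_(j < k < n) dg (z k)) * (η (z j) / b (z j) ^ 2)` by iteration of the equation of `VelP` from `V (z 1) = η (z 0) / b (z 0) ^ 2` (`dg (z 0) = 0`; induction on `m ≤ n`: `V (z m) = ∑_(j < m) (∏_(j < k < m) dg (z k)) * ..`).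
-/

set_option autoImplicit false

open Filter Topology Polynomial Metric Set MeasureTheory

namespace Pool.Agent.H66.UX

open Pool.Agent.H44.Fatou (rat rat_continuous rat_coe rat_coe_of_ne pt crit_coe)
open Pool.Agent.H32.BT Pool.Agent.H79.Eul Pool.Agent.H79.Par
open Pool.Agent.H35.EX Pool.Agent.H44.RR Pool.Agent.H56.HR Pool.Agent.H44.RC Pool.Agent.H47.RJ
open Pool.Agent.H47.NM Pool.Agent.H47.NN Pool.Agent.H44.ND Pool.Agent.H79.ES Pool.Agent.H44.RG
open Pool.Agent.H44.CP Pool.Agent.H47.PS Pool.Agent.H64.NC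
open Pool.Agent.H61.TT (gg dg ww RatD)
open Pool.Agent.H61.TT (LL Inv qf Cut pre fs RegV group_sum q_eq push_q q_sum1 q_sum2 reg_finite mem_fs hasDerivAt_gg differentiableAt_dg qf_near1 qf_decay qf_lim1 qf_meas qf_diff qf_zero cut_fin cut_union cut_mem rigid)
open Pool.Agent.H18.UP (Cr)
open Pool.Agent.H66.UP (VelP vel_s velp_crit sim_s)

private theorem inv_int (s : ℂ) (r : ℝ) : ∫⁻ y in ball s r, ENNReal.ofReal (‖y - s‖⁻¹) ≠ ⊤ := by
  have h1 : IntegrableOn (fun x : ℂ => ‖x‖⁻¹) (ball 0 r) := by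
    have h0 := (integrableOn_fun_norm_addHaar (E := ℂ) (F := ℝ) volume (f := fun y : ℝ => y⁻¹) (r := r)).2
    refine h0 ?_
    rw [Complex.finrank_real_complex]
    have h2 : IntegrableOn (fun _ : ℝ => (1 : ℝ)) (Ioo 0 r) := by
      refine integrableOn_const ?_
      rw [Real.volume_Ioo]
      exact ENNReal.ofReal_ne_top
    refine h2.congr_fun (fun y hy => ?_) measurableSet_Ioo
    have hy0 : y ≠ 0 := hy.1.ne'
    simp only [smul_eq_mul]
    rw [show (2 - 1 : ℕ) = 1 by norm_num, pow_one, mul_inv_cancel₀ hy0]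
  have h2 : Integrable ((ball (0 : ℂ) r).indicator (fun x : ℂ => ‖x‖⁻¹)) :=
    (integrable_indicator_iff measurableSet_ball).2 h1
  have h3 := h2.comp_sub_right s
  have h4 : (fun x => (ball (0 : ℂ) r).indicator (fun x : ℂ => ‖x‖⁻¹) (x - s)) =
      (ball s r).indicator (fun y => ‖y - s‖⁻¹) := by
    funext x
    simp only [indicator, mem_ball, dist_eq_norm, sub_zero]
  rw [h4, integrable_indicator_iff measurableSet_ball] at h3
  exact (Integrable.lintegral_lt_top h3).ne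

private theorem qf_int {S : Finset ℂ} {α β : ℂ → ℂ} (hα : ∀ s ∈ S, α s = 0) (h1 : ∑ s ∈ S, β s = 0)
    (h2 : ∑ s ∈ S, (α s + s * β s) = 0) : ∫⁻ z in (univ : Set ℂ), ‖qf S α β z‖ₑ ≠ ⊤ := by
  have hn : ∀ s : ℂ, ∃ c r : ℝ, 0 ≤ c ∧ 0 < r ∧ (s ∈ S → ∀ z : ℂ, z ≠ s → ‖z - s‖ < r →
      ‖qf S α β z‖ ≤ c / ‖z - s‖) := by
    intro s
    by_cases hs : s ∈ S
    · obtain ⟨c, r, hc, hr, h⟩ := qf_near1 (β := β) hα hs
      exact ⟨c, r, hc, hr, fun _ => h⟩
    · exact ⟨0, 1, le_rfl, one_pos, fun h => absurd h hs⟩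
  choose c K hc hK hq using hn
  have hsub : (univ : Set ℂ) ⊆ Cut S K 0 ∪ ⋃ s ∈ S, ball s (K s) := by
    intro z _
    by_cases h : z ∈ Cut S K 0
    · exact Or.inl h
    · right
      rw [cut_mem] at h
      push Not at h
      obtain ⟨s, hs, h⟩ := h
      rw [Nat.cast_zero, zero_add, div_one] at h
      exact mem_iUnion₂.2 ⟨s, hs, h⟩
  refine ne_top_of_le_ne_top ?_ ((lintegral_mono_set hsub).trans (lintegral_union_le _ _ _))
  refine ENNReal.add_ne_top.2 ⟨cut_fin (fun s _ => hK s) h1 h2 0, ?_⟩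
  refine ne_top_of_le_ne_top ?_ (cut_union S _ _)
  refine ENNReal.sum_ne_top.2 fun s hs => ?_
  have e : ∀ᵐ y ∂(volume.restrict (ball s (K s))),
      ‖qf S α β y‖ₑ ≤ ENNReal.ofReal (c s) * ENNReal.ofReal (‖y - s‖⁻¹) := by
    have e1 : ∀ᵐ y : ℂ, y ≠ s := by
      rw [ae_iff]
      simp
    filter_upwards [ae_restrict_of_ae e1, ae_restrict_mem measurableSet_ball] with y hy1 hy2
    rw [← ofReal_norm, ← ENNReal.ofReal_mul (hc s), ← div_eq_mul_inv]
    refine ENNReal.ofReal_le_ofReal (hq s hs y hy1 ?_)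
    rwa [mem_ball, dist_eq_norm] at hy2
  refine ne_top_of_le_ne_top ?_ (lintegral_mono_ae e)
  rw [lintegral_const_mul' _ _ ENNReal.ofReal_ne_top]
  exact ENNReal.mul_ne_top ENNReal.ofReal_ne_top (inv_int s (K s))

private theorem data' {d : ℕ} {a b : Polynomial ℂ} {I : Finset ℕ} {p A B : ℕ → ℂ} (h : RatD d a b)
    (hb : ∀ i ∈ I, b.eval (p i) ≠ 0) (hinv : Inv a b I p A B)
    (hη : ∀ η : Polynomial ℂ, η.natDegree ≤ 2 * d →
      LL I p A B (fun z => η.eval z / b.eval z ^ 2) = 0) (S : Finset ℂ) (hpS : ∀ i ∈ I, p i ∈ S) :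
    {x | ¬ (qf S (Pool.Agent.H61.TT.al a b I p A) (Pool.Agent.H61.TT.be a b I p A B) x =
      ∑ y ∈ fs a b x, qf S (Pool.Agent.H61.TT.al a b I p A) (Pool.Agent.H61.TT.be a b I p A B) y / dg a b y ^ 2)}.Finite ∧
    ∑ s ∈ S, Pool.Agent.H61.TT.be a b I p A B s = 0 ∧ ∑ s ∈ S, (Pool.Agent.H61.TT.al a b I p A s + s * Pool.Agent.H61.TT.be a b I p A B s) = 0 := by
  have g1 : ∀ u : ℂ → ℂ, ∑ s ∈ S, Pool.Agent.H61.TT.al a b I p A s * u s = ∑ i ∈ I, A i * dg a b (p i) * u (p i) := by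
    intro u
    exact group_sum I S p _ u (fun i hi hn => absurd (hpS i hi) hn)
  have g2 : ∀ u : ℂ → ℂ, ∑ s ∈ S, Pool.Agent.H61.TT.be a b I p A B s * u s =
      ∑ i ∈ I, (A i * deriv (dg a b) (p i) + B i * dg a b (p i)) * u (p i) := by
    intro u
    exact group_sum I S p _ u (fun i hi hn => absurd (hpS i hi) hn)
  have hq : ∀ x, (∀ i ∈ I, p i ≠ x) → qf S (Pool.Agent.H61.TT.al a b I p A) (Pool.Agent.H61.TT.be a b I p A B) x =
      LL I p A B (fun z => dg a b z / (x - z)) := by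
    intro x hx
    rw [q_eq hb hx]
    unfold qf
    rw [Finset.sum_add_distrib, Finset.sum_add_distrib]
    congr 1
    · have := g1 (fun s => ((x - s) ^ 2)⁻¹)
      simpa only [div_eq_mul_inv] using this
    · have := g2 (fun s => (x - s)⁻¹)
      simpa only [div_eq_mul_inv] using this
  refine ⟨?_, ?_, ?_⟩
  · have f1 := reg_finite h
    have f2 : (p '' (I : Set ℕ)).Finite := I.finite_toSet.image _
    have f3 : ((fun i => gg a b (p i)) '' (I : Set ℕ)).Finite := I.finite_toSet.image _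
    refine ((f1.union f2).union f3).subset ?_
    intro x hx
    by_contra hcon
    rw [mem_union, mem_union, not_or, not_or] at hcon
    obtain ⟨⟨c1, c2⟩, c3⟩ := hcon
    apply hx
    have hreg : RegV d a b x := not_not.1 c1
    have hx1 : ∀ i ∈ I, p i ≠ x := fun i hi he => c2 ⟨i, hi, he⟩
    have hx2 : ∀ i ∈ I, gg a b (p i) ≠ x := fun i hi he => c3 ⟨i, hi, he⟩
    rw [hq x hx1, push_q h hb hinv hη hreg hx1 hx2]
    refine Finset.sum_congr rfl fun y hy => ?_
    rw [hq y]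
    intro i hi he
    exact hx2 i hi (he ▸ ((mem_fs h x y).1 hy).2)
  · have := g2 (fun _ => 1)
    simp only [mul_one] at this
    rw [this]
    exact q_sum1 h hb hinv hη
  · have e1 := g1 (fun _ => 1)
    have e2 := g2 (fun s => s)
    simp only [mul_one] at e1
    rw [Finset.sum_add_distrib, e1]
    have e3 : ∑ s ∈ S, s * Pool.Agent.H61.TT.be a b I p A B s = ∑ s ∈ S, Pool.Agent.H61.TT.be a b I p A B s * s :=
      Finset.sum_congr rfl fun s _ => mul_comm _ _
    rw [e3, e2, ← Finset.sum_add_distrib]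
    rw [← q_sum2 h hb hinv hη]
    refine Finset.sum_congr rfl fun i _ => ?_
    ring

private theorem Ioo_succ' {j m : ℕ} (h : j + 1 < m) (f : ℕ → ℂ) :
    ∏ k ∈ Finset.Ioo j m, f k = f (j + 1) * ∏ k ∈ Finset.Ioo (j + 1) m, f k := by
  have e : Finset.Ioo j m = insert (j + 1) (Finset.Ioo (j + 1) m) := by
    ext k
    simp only [Finset.mem_Ioo, Finset.mem_insert]
    omega
  rw [e, Finset.prod_insert (by simp)]

private theorem Ioo_top {j m : ℕ} (h : j < m) (f : ℕ → ℂ) :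
    ∏ k ∈ Finset.Ioo j (m + 1), f k = (∏ k ∈ Finset.Ioo j m, f k) * f m := by
  have e : Finset.Ioo j (m + 1) = insert m (Finset.Ioo j m) := by
    ext k
    simp only [Finset.mem_Ioo, Finset.mem_insert]
    omega
  rw [e, Finset.prod_insert (by simp), mul_comm]

private theorem Ioo_emp (m : ℕ) (f : ℕ → ℂ) : ∏ k ∈ Finset.Ioo m (m + 1), f k = 1 := by
  have e : Finset.Ioo m (m + 1) = ∅ := by
    ext k
    simp only [Finset.mem_Ioo, Finset.notMem_empty, iff_false]
    omega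
  rw [e, Finset.prod_empty]

theorem ncr0 {d : ℕ} {a b : Polynomial ℂ} (h : RatD d a b) {z : ℕ → ℂ} {n : ℕ} (hn : 1 ≤ n)
    (hb : ∀ j ≤ n, b.eval (z j) ≠ 0) (hz : ∀ j < n, gg a b (z j) = z (j + 1)) (h0 : (ww a b).eval (z 0) = 0)
    (h1 : (ww a b).eval (z n) = 0) (hκ : (derivative (ww a b)).eval (z n) ≠ 0)
    (hinj : ∀ i ≤ n, ∀ j ≤ n, z i = z j → i = j) (hnext : ∀ j ≤ n, gg a b (z n) ≠ z j)
    (hrel : ∀ η : Polynomial ℂ, η.natDegree ≤ 2 * d → deriv (fun x => η.eval x / b.eval x ^ 2) (z n) +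
      (derivative (ww a b)).eval (z n) / b.eval (z n) ^ 2 *
        ∑ j ∈ Finset.range n, (∏ k ∈ Finset.Ioo j n, dg a b (z k)) * (η.eval (z j) / b.eval (z j) ^ 2) = 0) : False := by
  classical
  obtain ⟨κ, hκd⟩ : ∃ κ, κ = (derivative (ww a b)).eval (z n) / b.eval (z n) ^ 2 := ⟨_, rfl⟩
  have hbn := hb n le_rfl
  have hbn2 : b.eval (z n) ^ 2 ≠ 0 := pow_ne_zero _ hbn
  have hκ0 : κ ≠ 0 := by
    rw [hκd]
    exact div_ne_zero hκ hbn2
  have hdn : dg a b (z n) = 0 := by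
    unfold dg
    rw [h1, zero_div]
  have hd0 : dg a b (z 0) = 0 := by
    unfold dg
    rw [h0, zero_div]
  have hdd : HasDerivAt (dg a b) κ (z n) := by
    have h2 := ((ww a b).hasDerivAt (z n)).div ((b.hasDerivAt (z n)).pow 2) hbn2
    refine h2.congr_deriv ?_
    rw [h1, hκd]
    simp only [Pi.pow_apply]
    field_simp
    ring
  rw [← hκd] at hrel
  obtain ⟨A, hA⟩ : ∃ A : ℕ → ℂ, ∀ j, A j = if j = n then 1 else 0 := ⟨_, fun _ => rfl⟩
  obtain ⟨B, hB⟩ : ∃ B : ℕ → ℂ, ∀ j, B j = if j < n then κ * ∏ k ∈ Finset.Ioo j n, dg a b (z k) else 0 :=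
    ⟨_, fun _ => rfl⟩
  have hLL : ∀ V : ℂ → ℂ, LL (Finset.range (n + 1)) z A B V =
      deriv V (z n) + ∑ j ∈ Finset.range n, B j * V (z j) := by
    intro V
    unfold LL
    rw [Finset.sum_range_succ, hA n, if_pos rfl, hB n, if_neg (lt_irrefl n), one_mul, zero_mul, add_zero, add_comm]
    congr 1
    refine Finset.sum_congr rfl fun j hj => ?_
    rw [hA, if_neg (by have := Finset.mem_range.1 hj; omega), zero_mul, zero_add]
  have hinv : Inv a b (Finset.range (n + 1)) z A B := by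
    intro V hV
    rw [hLL, hLL]
    have hVn := hV n (Finset.mem_range.2 (Nat.lt_succ_self n))
    have d1 : HasDerivAt (fun w => V (gg a b w)) (deriv V (gg a b (z n)) * dg a b (z n)) (z n) :=
      hVn.2.hasDerivAt.comp (z n) (hasDerivAt_gg hbn)
    have d2 : HasDerivAt (fun w => dg a b w * V w) (κ * V (z n) + dg a b (z n) * deriv V (z n)) (z n) :=
      hdd.mul hVn.1.hasDerivAt
    rw [d1.deriv, d2.deriv, hdn, mul_zero, zero_mul, add_zero, zero_add]
    obtain ⟨m, rfl⟩ : ∃ m, n = m + 1 := ⟨n - 1, by omega⟩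
    rw [Finset.sum_range_succ, Finset.sum_range_succ' (fun j => B j * (dg a b (z j) * V (z j)))]
    have e1 : B m = κ := by
      rw [hB, if_pos (Nat.lt_succ_self m), Ioo_emp, mul_one]
    have e2 : ∑ j ∈ Finset.range m, B j * V (gg a b (z j)) =
        ∑ j ∈ Finset.range m, B (j + 1) * (dg a b (z (j + 1)) * V (z (j + 1))) := by
      refine Finset.sum_congr rfl fun j hj => ?_
      have hj' := Finset.mem_range.1 hj
      rw [hz j (by omega), hB j, if_pos (by omega), hB (j + 1), if_pos (by omega), Ioo_succ' (by omega)]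
      ring
    rw [e2, e1, hz m (by omega), hd0]
    ring
  have hη : ∀ η : Polynomial ℂ, η.natDegree ≤ 2 * d →
      LL (Finset.range (n + 1)) z A B (fun z => η.eval z / b.eval z ^ 2) = 0 := by
    intro η hη
    rw [hLL, ← hrel η hη]
    congr 1
    rw [Finset.mul_sum]
    refine Finset.sum_congr rfl fun j hj => ?_
    rw [hB, if_pos (Finset.mem_range.1 hj), mul_assoc]
  obtain ⟨S, hS⟩ : ∃ S : Finset ℂ, S = (Finset.range (n + 1)).image z := ⟨_, rfl⟩
  have hSm : ∀ j ≤ n, z j ∈ S := fun j hj => by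
    rw [hS]
    exact Finset.mem_image.2 ⟨j, Finset.mem_range.2 (by omega), rfl⟩
  have hSx : ∀ s ∈ S, ∃ j ≤ n, z j = s := by
    intro s hs
    rw [hS] at hs
    obtain ⟨j, hj, hjs⟩ := Finset.mem_image.1 hs
    exact ⟨j, Nat.lt_succ_iff.1 (Finset.mem_range.1 hj), hjs⟩
  have hbI : ∀ i ∈ Finset.range (n + 1), b.eval (z i) ≠ 0 := fun i hi =>
    hb i (Nat.lt_succ_iff.1 (Finset.mem_range.1 hi))
  have hpS : ∀ i ∈ Finset.range (n + 1), z i ∈ S := fun i hi =>
    hSm i (Nat.lt_succ_iff.1 (Finset.mem_range.1 hi))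
  obtain ⟨hpush, hs1, hs2⟩ := data' h hbI hinv hη S hpS
  obtain ⟨α, hαd⟩ : ∃ α, α = Pool.Agent.H61.TT.al a b (Finset.range (n + 1)) z A := ⟨_, rfl⟩
  obtain ⟨β, hβd⟩ : ∃ β, β = Pool.Agent.H61.TT.be a b (Finset.range (n + 1)) z A B := ⟨_, rfl⟩
  rw [← hαd, ← hβd] at hpush hs2
  rw [← hβd] at hs1
  have hα : ∀ s ∈ S, α s = 0 := by
    intro s _
    rw [hαd]
    unfold Pool.Agent.H61.TT.al
    refine Finset.sum_eq_zero fun i _ => ?_
    rw [hA]
    by_cases hi : i = n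
    · rw [hi, hdn, mul_zero]
    · rw [if_neg hi, zero_mul]
  have hβn : β (z n) = κ := by
    rw [hβd]
    unfold Pool.Agent.H61.TT.be
    have hf : Finset.filter (fun i => z i = z n) (Finset.range (n + 1)) = {n} := by
      ext i
      rw [Finset.mem_filter, Finset.mem_range, Finset.mem_singleton]
      constructor
      · rintro ⟨hi1, hi2⟩
        exact hinj i (by omega) n le_rfl hi2
      · rintro rfl
        exact ⟨by omega, rfl⟩
    rw [hf, Finset.sum_singleton, hA, if_pos rfl, hdd.deriv, hdn]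
    ring
  have hne : ∃ s ∈ S, α s ≠ 0 ∨ β s ≠ 0 := ⟨z n, hSm n le_rfl, Or.inr (by rw [hβn]; exact hκ0)⟩
  have hid := rigid h (q := qf S α β) (S := S) (T := fun _ => univ) qf_meas (fun z hz => qf_diff hz) (qf_zero hne)
    hpush (fun _ => MeasurableSet.univ) monotone_const (fun _ _ => ⟨0, mem_univ _⟩)
    (fun _ => qf_int hα hs1 hs2) (by
      simp only [Set.sdiff_univ, Measure.restrict_empty, lintegral_zero_measure]
      exact tendsto_const_nhds)
  have hnS : gg a b (z n) ∉ S := by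
    intro hmem
    obtain ⟨j, hj, hjs⟩ := hSx _ hmem
    exact hnext j hj hjs.symm
  have hgc : ContinuousAt (gg a b) (z n) := (hasDerivAt_gg hbn).continuousAt
  have hqc : ContinuousAt (qf S α β) (gg a b (z n)) := (qf_diff hnS).continuousAt
  have hev : ∀ᶠ y in 𝓝[≠] (z n), (d : ℂ) * qf S α β y = dg a b y ^ 2 * qf S α β (gg a b y) := by
    have f1 : ∀ᶠ y in 𝓝 (z n), y ∈ ((S.erase (z n) : Finset ℂ) : Set ℂ)ᶜ :=
      (Finset.finite_toSet _).isClosed.isOpen_compl.mem_nhds (by simp)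
    have f2 : ∀ᶠ y in 𝓝 (z n), b.eval y ≠ 0 := b.continuous.continuousAt.eventually_ne hbn
    have f3 : ∀ᶠ y in 𝓝 (z n), gg a b y ∈ ((S : Finset ℂ) : Set ℂ)ᶜ :=
      hgc.eventually ((Finset.finite_toSet _).isClosed.isOpen_compl.mem_nhds (by simpa using hnS))
    filter_upwards [f1.filter_mono nhdsWithin_le_nhds, f2.filter_mono nhdsWithin_le_nhds,
      f3.filter_mono nhdsWithin_le_nhds, self_mem_nhdsWithin] with y g1 g2 g3 g4
    refine hid y ?_ g2 (fun hh => g3 (Finset.mem_coe.2 hh))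
    intro hyS
    exact g1 (Finset.mem_coe.2 (Finset.mem_erase.2 ⟨g4, hyS⟩))
  have t1 : Tendsto (fun y => (d : ℂ) * ((y - z n) * qf S α β y)) (𝓝[≠] (z n)) (𝓝 ((d : ℂ) * β (z n))) :=
    (qf_lim1 hα (hSm n le_rfl)).const_mul _
  have t2 : Tendsto (fun y => (y - z n) * (dg a b y ^ 2 * qf S α β (gg a b y))) (𝓝[≠] (z n)) (𝓝 0) := by
    have c1 : ContinuousAt (fun y => (y - z n) * (dg a b y ^ 2 * qf S α β (gg a b y))) (z n) := by
      refine ContinuousAt.mul (continuousAt_id.sub continuousAt_const) (ContinuousAt.mul ?_ ?_)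
      · exact (differentiableAt_dg hbn).continuousAt.pow 2
      · exact ContinuousAt.comp (g := qf S α β) (f := gg a b) hqc hgc
    have c2 := c1.tendsto.mono_left (nhdsWithin_le_nhds (s := {z n}ᶜ))
    simpa using c2
  have t3 : Tendsto (fun y => (d : ℂ) * ((y - z n) * qf S α β y)) (𝓝[≠] (z n)) (𝓝 0) := by
    refine t2.congr' ?_
    filter_upwards [hev] with y hy
    rw [← hy]
    ring
  have t4 := tendsto_nhds_unique t1 t3
  rw [hβn] at t4
  have hd2 : (d : ℂ) ≠ 0 := by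
    have := h.hd
    exact_mod_cast (by omega : d ≠ 0)
  exact mul_ne_zero hd2 hκ0 t4

private theorem vel_sum {a b η : Polynomial ℂ} {V : ℂ → ℂ} (hV : VelP a b η V) {z : ℕ → ℂ} {n : ℕ}
    (hb : ∀ j ≤ n, b.eval (z j) ≠ 0) (hz : ∀ j < n, gg a b (z j) = z (j + 1)) (h0 : (ww a b).eval (z 0) = 0) :
    ∀ m : ℕ, 1 ≤ m → m ≤ n → V (z m) =
      ∑ j ∈ Finset.range m, (∏ k ∈ Finset.Ioo j m, dg a b (z k)) * (η.eval (z j) / b.eval (z j) ^ 2) := by
  intro m hm
  have hd0 : dg a b (z 0) = 0 := by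
    unfold dg
    rw [h0, zero_div]
  induction m, hm using Nat.le_induction with
  | base =>
    intro hn
    rw [Finset.sum_range_one, Ioo_emp, one_mul, ← hz 0 (by omega), hV.2.1 _ (hb 0 (by omega)), hd0, zero_mul,
      zero_add]
  | succ m hm ih =>
    intro hmn
    rw [← hz m (by omega), hV.2.1 _ (hb m (by omega)), ih (by omega), Finset.sum_range_succ, Ioo_emp, one_mul,
      Finset.mul_sum]
    congr 1
    refine Finset.sum_congr rfl fun j hj => ?_
    rw [Ioo_top (Finset.mem_range.1 hj)]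
    ring

theorem ncr {d : ℕ} {v : E d} (hd : 2 ≤ d) (hcop : IsCoprime (pol v.1) (pol v.2))
    (hdeg : max (pol v.1).natDegree (pol v.2).natDegree = d) (hup : ¬ Up v) (hJ : JS (Rf v) = univ)
    (h0 : Rf v ((0 : ℂ) : OnePoint ℂ) = ((0 : ℂ) : OnePoint ℂ))
    (h1 : Rf v ((1 : ℂ) : OnePoint ℂ) = ((1 : ℂ) : OnePoint ℂ)) (hi : Rf v OnePoint.infty = OnePoint.infty)
    {c1 c2 : ℂ} (hc1 : Cr (pol v.1) (pol v.2) c1) (hc2 : Cr (pol v.1) (pol v.2) c2) {n : ℕ} (hn : 1 ≤ n) :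
    (Rf v)^[n] (c1 : OnePoint ℂ) ≠ (c2 : OnePoint ℂ) := by
  intro he
  have hR : RatD d (pol v.1) (pol v.2) := ⟨hd, hcop, hdeg⟩
  have hcr : IsCrit (Rf v) (c1 : OnePoint ℂ) :=
    Pool.Agent.H32.BT.crit_of_wr hcop (by rw [hdeg]; omega) hc1.2
  have hnp := not_pre hd hcop hdeg hup hcr (hJ ▸ mem_univ _)
  have hinf : ∀ k : ℕ, (Rf v)^[k] OnePoint.infty = OnePoint.infty := fun k => Function.iterate_fixed hi k
  have hpt : ∀ j : ℕ, ∃ z : ℂ, j ≤ n → (Rf v)^[j] (c1 : OnePoint ℂ) = (z : OnePoint ℂ) := by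
    intro j
    by_cases hj : j ≤ n
    · have h2 : (Rf v)^[j] (c1 : OnePoint ℂ) ≠ OnePoint.infty := by
        intro h3
        have h4 : (Rf v)^[n] (c1 : OnePoint ℂ) = OnePoint.infty := by
          obtain ⟨k, rfl⟩ := Nat.exists_eq_add_of_le hj
          rw [Nat.add_comm, Function.iterate_add_apply, h3, hinf]
        rw [he] at h4
        exact OnePoint.coe_ne_infty _ h4
      obtain ⟨z, hz⟩ := OnePoint.ne_infty_iff_exists.1 h2
      exact ⟨z, fun _ => hz.symm⟩
    · exact ⟨0, fun h => absurd h hj⟩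
  choose z hz using hpt
  have hz0 : z 0 = c1 := by
    have h2 := hz 0 (Nat.zero_le _)
    exact (OnePoint.coe_injective h2).symm
  have hzn : z n = c2 := by
    have h2 := hz n le_rfl
    rw [he] at h2
    exact (OnePoint.coe_injective h2).symm
  have hstep : ∀ j ≤ n, (Rf v)^[j + 1] (c1 : OnePoint ℂ) = Rf v (z j : OnePoint ℂ) := by
    intro j hj
    rw [Function.iterate_succ_apply', hz j hj]
  have hb : ∀ j ≤ n, (pol v.2).eval (z j) ≠ 0 := by
    intro j hj
    rcases Nat.lt_or_ge j n with hjn | hjn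
    · intro hb0
      have h2 := hstep j hj
      rw [hz (j + 1) hjn] at h2
      have h3 : Rf v (z j : OnePoint ℂ) = OnePoint.infty := by
        show rat (pol v.1) (pol v.2) (z j : OnePoint ℂ) = OnePoint.infty
        rw [rat_coe]
        unfold pt
        rw [if_pos hb0]
      rw [h3] at h2
      exact OnePoint.coe_ne_infty _ h2
    · have : j = n := le_antisymm hj hjn
      rw [this, hzn]
      exact hc2.1
  have hval : ∀ j ≤ n, Rf v (z j : OnePoint ℂ) = ((gg (pol v.1) (pol v.2) (z j) : ℂ) : OnePoint ℂ) := by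
    intro j hj
    exact rat_coe_of_ne (hb j hj)
  have hg : ∀ j < n, gg (pol v.1) (pol v.2) (z j) = z (j + 1) := by
    intro j hj
    have h2 := hstep j hj.le
    rw [hz (j + 1) hj, hval j hj.le] at h2
    exact (OnePoint.coe_injective h2).symm
  have hinj : ∀ i ≤ n, ∀ j ≤ n, z i = z j → i = j := by
    intro i hi j hj hij
    have h2 : (Rf v)^[i] (c1 : OnePoint ℂ) = (Rf v)^[j] (c1 : OnePoint ℂ) := by
      rw [hz i hi, hz j hj, hij]
    rcases lt_trichotomy i j with h3 | h3 | h3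
    · exact absurd h2 (hnp i j h3)
    · exact h3
    · exact absurd h2.symm (hnp j i h3)
  have hnext : ∀ j ≤ n, gg (pol v.1) (pol v.2) (z n) ≠ z j := by
    intro j hj hjn
    have h2 := hstep n le_rfl
    rw [hval n le_rfl, hjn, ← hz j hj] at h2
    exact hnp j (n + 1) (by omega) h2.symm
  have hVex : ∀ j : ℕ, ∃ V : ℂ → ℂ, j ≤ 2 * d → VelP (pol v.1) (pol v.2) (X ^ j) V := by
    intro j
    by_cases hj : j ≤ 2 * d
    · obtain ⟨V, hV⟩ := vel_s hd hcop hdeg hup hJ h0 h1 hi ((natDegree_X_pow_le (R := ℂ) j).trans hj)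
      exact ⟨V, fun _ => hV⟩
    · exact ⟨fun _ => 0, fun h => absurd h hj⟩
  choose V hV using hVex
  have hκ := sim_s (N := 2 * d) (by omega) hV hc2
  refine ncr0 hR hn hb hg (by rw [hz0]; exact hc1.2) (by rw [hzn]; exact hc2.2) (by rw [hzn]; exact hκ) hinj hnext ?_
  intro η hη
  obtain ⟨W, hW⟩ := vel_s hd hcop hdeg hup hJ h0 h1 hi hη
  have h2 := velp_crit hW hc2
  have h3 := vel_sum hW hb hg (by rw [hz0]; exact hc1.2) n hn le_rfl
  rw [← h3, hzn, add_comm]
  exact h2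

end Pool.Agent.H66.UX
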