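import Pool.Agent.H66.UX.Defs

/-!
# [H66 UX INF] UD on the sphere, realization: near infinity; exactness in the plane

`inf_rz`. PROOF. `L0, θ` from `con`. `K = ‖gg z0‖ + ..`: for `‖z‖ ≥ L0`: `‖gg z‖ ≤ θ ‖z‖ + C1` (the complement of the ball is not convex: join `z` to `L0 z / ‖z‖` by the radial segment, `‖gg z - gg (L0 z / ‖z‖)‖ ≤ θ (‖z‖ - L0)`, `gg` is bounded on the circle `‖z‖ = L0`). `rat a b ∞ = ∞` is a fixed point and `rat a b` is a local homeomorphism there (`∞` is not critical by `ci`), or by degrees: `natDegree b = natDegree a - 1`: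
`a z / (z b z)` tends to a limit `κ ≠ 0` for `z → ∞` (`natDegree b ≤ natDegree a - 1` from `fi`; if `natDegree b < natDegree a - 1` then `dg` is unbounded near infinity: contradiction to `con`): so `‖gg z‖ ≥ c1 ‖z‖` for `‖z‖ ≥ L1`, `c1 > 0`. Let `A ≥ max L0 L1 (2 C1 / (1 - θ))`, `thickening δ P ⊆ ball 0 A`, `B = max A (A / c1)`, enlarged such that `‖gg z‖ ≤ ((1 + θ) / 2) ‖z‖` for `‖z‖ ≥ B`.
Let `B ≤ ‖z‖`, orbit in the plane. Let `m` be the first time with `‖gg^[m] z‖ ≤ B` (it exists: the norms decrease by the factor `(1 + θ) / 2` as long as they are `> B`). If `m = 0` then `‖z‖ = B ≥ A`. If `m > 0` then `‖gg^[m-1] z‖ > B`, so `‖gg^[m] z‖ ≥ c1 B ≥ A`.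
`leo_rz`. PROOF. `h.leo` for the image of `O` in the sphere: `N`. For `n ≥ N`, `y ∈ ball 0 R`: `x ∈ O` with `(rat a b)^[n] x = y`; no `(rat a b)^[j] x`, `j ≤ n`, is `∞` (`fi`: then `(rat a b)^[n] x = ∞`), so `x` is in `oU` (`b (gg^[j] x) ≠ 0` for `j < n`) and `gg^[n] x = y`.
-/

set_option autoImplicit false

open Filter Topology Polynomial Metric Set MeasureTheory

namespace Pool.Agent.H66.UX

open Pool.Agent.H44.Fatou (rat rat_continuous rat_coe rat_coe_of_ne pt crit_coe)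
open Pool.Agent.H32.BT (IsCrit)
open Pool.Agent.H61.TT (gg dg ww RatD)
open Pool.Agent.H78.UX (oU)

variable {a b : Polynomial ℂ} {D : ℕ} {P : Set ℂ}

private theorem rat_it {n : ℕ} {z : ℂ} (hfi : rat a b OnePoint.infty = OnePoint.infty)
    (h : (rat a b)^[n] (z : OnePoint ℂ) ≠ OnePoint.infty) :
    (∀ j < n, b.eval ((gg a b)^[j] z) ≠ 0) ∧ (rat a b)^[n] (z : OnePoint ℂ) = (((gg a b)^[n] z : ℂ) : OnePoint ℂ) := by
  induction n with
  | zero => exact ⟨fun j hj => absurd hj (Nat.not_lt_zero j), rfl⟩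
  | succ n ih =>
    rw [Function.iterate_succ_apply'] at h
    have h1 : (rat a b)^[n] (z : OnePoint ℂ) ≠ OnePoint.infty := by
      intro h2
      rw [h2] at h
      exact h hfi
    obtain ⟨h2, h3⟩ := ih h1
    have h4 : b.eval ((gg a b)^[n] z) ≠ 0 := by
      intro h5
      rw [h3, rat_coe] at h
      unfold pt at h
      rw [if_pos h5] at h
      exact h rfl
    refine ⟨fun j hj => ?_, ?_⟩
    · rcases Nat.lt_succ_iff_lt_or_eq.1 hj with h5 | h5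
      · exact h2 j h5
      · rw [h5]
        exact h4
    · rw [Function.iterate_succ_apply', Function.iterate_succ_apply', h3, rat_coe_of_ne h4]
      rfl

/-- lower bound of a polynomial near infinity -/
private theorem pol_low (q : Polynomial ℂ) (hq : q ≠ 0) : ∃ L c : ℝ, 1 ≤ L ∧ 0 < c ∧ ∀ z : ℂ, L ≤ ‖z‖ →
    c * ‖z‖ ^ q.natDegree ≤ ‖q.eval z‖ := by
  obtain ⟨n, hn⟩ : ∃ n, n = q.natDegree := ⟨_, rfl⟩
  obtain ⟨A, hA⟩ : ∃ A : ℝ, A = ∑ i ∈ Finset.range n, ‖q.coeff i‖ := ⟨_, rfl⟩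
  have hA0 : 0 ≤ A := by
    rw [hA]
    exact Finset.sum_nonneg fun i _ => norm_nonneg _
  have hl : 0 < ‖q.leadingCoeff‖ := norm_pos_iff.2 (Polynomial.leadingCoeff_ne_zero.2 hq)
  refine ⟨max 1 (2 * A / ‖q.leadingCoeff‖), ‖q.leadingCoeff‖ / 2, le_max_left _ _, half_pos hl, fun z hz => ?_⟩
  have hz1 : 1 ≤ ‖z‖ := (le_max_left _ _).trans hz
  have hz2 : 2 * A / ‖q.leadingCoeff‖ ≤ ‖z‖ := (le_max_right _ _).trans hz
  rw [div_le_iff₀ hl] at hz2
  rw [← hn]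
  have h1 : q.eval z = (∑ i ∈ Finset.range n, q.coeff i * z ^ i) + q.leadingCoeff * z ^ n := by
    rw [Polynomial.eval_eq_sum_range, ← hn, Finset.sum_range_succ]
    congr 2
    rw [hn]
    rfl
  have h2 : ‖∑ i ∈ Finset.range n, q.coeff i * z ^ i‖ * 2 ≤ ‖q.leadingCoeff‖ * ‖z‖ ^ n := by
    rcases Nat.eq_zero_or_pos n with h0 | h0
    · rw [h0, Finset.sum_range_zero, norm_zero, zero_mul]
      positivity
    · obtain ⟨m, rfl⟩ : ∃ m, n = m + 1 := ⟨n - 1, by omega⟩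
      have h3 : ‖∑ i ∈ Finset.range (m + 1), q.coeff i * z ^ i‖ ≤ A * ‖z‖ ^ m := by
        rw [hA, Finset.sum_mul]
        refine (norm_sum_le _ _).trans (Finset.sum_le_sum fun i hi => ?_)
        rw [norm_mul, norm_pow]
        have h4 : i ≤ m := Nat.lt_succ_iff.1 (Finset.mem_range.1 hi)
        gcongr
      have h5 : 0 ≤ ‖z‖ ^ m := by positivity
      calc ‖∑ i ∈ Finset.range (m + 1), q.coeff i * z ^ i‖ * 2 ≤ A * ‖z‖ ^ m * 2 := by gcongr
        _ = (2 * A) * ‖z‖ ^ m := by ring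
        _ ≤ (‖z‖ * ‖q.leadingCoeff‖) * ‖z‖ ^ m := by gcongr
        _ = ‖q.leadingCoeff‖ * ‖z‖ ^ (m + 1) := by ring
  have h3 : ‖q.leadingCoeff * z ^ n‖ ≤ ‖q.eval z‖ + ‖∑ i ∈ Finset.range n, q.coeff i * z ^ i‖ := by
    have h4 : q.leadingCoeff * z ^ n = q.eval z - ∑ i ∈ Finset.range n, q.coeff i * z ^ i := by
      rw [h1]
      ring
    rw [h4]
    exact norm_sub_le _ _
  rw [norm_mul, norm_pow] at h3
  linarith

/-- upper bound of a polynomial near infinity -/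
private theorem pol_up (q : Polynomial ℂ) : ∃ C : ℝ, 0 < C ∧ ∀ z : ℂ, 1 ≤ ‖z‖ →
    ‖q.eval z‖ ≤ C * ‖z‖ ^ q.natDegree := by
  refine ⟨(∑ i ∈ Finset.range (q.natDegree + 1), ‖q.coeff i‖) + 1, ?_, fun z hz => ?_⟩
  · have h1 : 0 ≤ ∑ i ∈ Finset.range (q.natDegree + 1), ‖q.coeff i‖ := Finset.sum_nonneg fun i _ => norm_nonneg _
    linarith
  · rw [Polynomial.eval_eq_sum_range, add_mul, Finset.sum_mul, one_mul]
    have h1 : 0 ≤ ‖z‖ ^ q.natDegree := by positivity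
    have h2 : ‖∑ i ∈ Finset.range (q.natDegree + 1), q.coeff i * z ^ i‖ ≤
        ∑ i ∈ Finset.range (q.natDegree + 1), ‖q.coeff i‖ * ‖z‖ ^ q.natDegree := by
      refine (norm_sum_le _ _).trans (Finset.sum_le_sum fun i hi => ?_)
      rw [norm_mul, norm_pow]
      have h4 : i ≤ q.natDegree := Nat.lt_succ_iff.1 (Finset.mem_range.1 hi)
      gcongr
    linarith

/-- the degree of the denominator is smaller -/
private theorem deg_lt (h : RZ a b D P) : b.natDegree + 1 ≤ a.natDegree ∧ a ≠ 0 ∧ b ≠ 0 := by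
  have hb0 : b ≠ 0 := by
    rintro rfl
    obtain ⟨z, hz⟩ := h.Pn
    exact h.Pb z hz (eval_zero)
  have hfi := h.fi
  have h1 : b.coeff (max a.natDegree b.natDegree) = 0 := by
    by_contra h2
    have h3 : rat a b OnePoint.infty = pt (a.coeff (max a.natDegree b.natDegree))
        (b.coeff (max a.natDegree b.natDegree)) := rfl
    rw [h3] at hfi
    unfold pt at hfi
    rw [if_neg h2] at hfi
    exact OnePoint.coe_ne_infty _ hfi
  have h2 : b.natDegree < a.natDegree := by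
    by_contra h3
    push Not at h3
    rw [max_eq_right h3] at h1
    exact hb0 (Polynomial.leadingCoeff_eq_zero.1 h1)
  refine ⟨h2, ?_, hb0⟩
  rintro rfl
  rw [natDegree_zero] at h2
  exact absurd h2 (Nat.not_lt_zero _)

private theorem gg_low (h : RZ a b D P) : ∃ L c : ℝ, 1 ≤ L ∧ 0 < c ∧ ∀ z : ℂ, L ≤ ‖z‖ → c * ‖z‖ ≤ ‖gg a b z‖ := by
  obtain ⟨h1, ha, hb⟩ := deg_lt h
  obtain ⟨La, ca, hLa, hca, h2⟩ := pol_low a ha
  obtain ⟨Lb, cb, hLb, hcb, h3⟩ := pol_low b hb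
  obtain ⟨C, hC, h4⟩ := pol_up b
  refine ⟨max La Lb, ca / C, hLa.trans (le_max_left _ _), div_pos hca hC, fun z hz => ?_⟩
  have hz1 : La ≤ ‖z‖ := (le_max_left _ _).trans hz
  have hz2 : Lb ≤ ‖z‖ := (le_max_right _ _).trans hz
  have hz3 : 1 ≤ ‖z‖ := hLa.trans hz1
  have hz0 : 0 < ‖z‖ := by linarith
  have e1 := h2 z hz1
  have e2 := h3 z hz2
  have e3 := h4 z hz3
  have hbz : 0 < ‖b.eval z‖ := lt_of_lt_of_le (mul_pos hcb (pow_pos hz0 _)) e2
  have e4 : ‖z‖ * ‖z‖ ^ b.natDegree ≤ ‖z‖ ^ a.natDegree := by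
    rw [← pow_succ']
    exact pow_le_pow_right₀ hz3 h1
  unfold gg
  rw [norm_div, le_div_iff₀ hbz]
  calc ca / C * ‖z‖ * ‖b.eval z‖ ≤ ca / C * ‖z‖ * (C * ‖z‖ ^ b.natDegree) := by gcongr
    _ = ca * (‖z‖ * ‖z‖ ^ b.natDegree) := by
      field_simp
    _ ≤ ca * ‖z‖ ^ a.natDegree := by gcongr
    _ ≤ ‖a.eval z‖ := e1

private theorem gg_up (h : RZ a b D P) {L0 θ : ℝ} (hL0 : 0 < L0) (hθ : 0 < θ)
    (hc : ∀ z : ℂ, L0 ≤ ‖z‖ → b.eval z ≠ 0 ∧ ‖dg a b z‖ ≤ θ) :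
    ∃ C1 : ℝ, 0 ≤ C1 ∧ ∀ z : ℂ, L0 ≤ ‖z‖ → ‖gg a b z‖ ≤ θ * ‖z‖ + C1 := by
  have hcont : ContinuousOn (gg a b) (sphere (0 : ℂ) L0) := by
    intro z hz
    rw [mem_sphere_zero_iff_norm] at hz
    exact (Pool.Agent.H61.TT.hasDerivAt_gg (hc z hz.ge).1).continuousAt.continuousWithinAt
  obtain ⟨C0, hC0⟩ := (isCompact_sphere (0 : ℂ) L0).exists_bound_of_continuousOn hcont
  refine ⟨max C0 0, le_max_right _ _, fun z hz => ?_⟩
  have hz0 : 0 < ‖z‖ := by linarith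
  obtain ⟨t0, ht0⟩ : ∃ t0 : ℝ, t0 = L0 / ‖z‖ := ⟨_, rfl⟩
  have ht00 : 0 < t0 := by
    rw [ht0]
    positivity
  have ht01 : t0 ≤ 1 := by
    rw [ht0, div_le_one hz0]
    exact hz
  have ht0z : t0 * ‖z‖ = L0 := by
    rw [ht0]
    field_simp
  have hseg : ∀ y ∈ segment ℝ ((t0 : ℂ) * z) z, L0 ≤ ‖y‖ := by
    rintro y ⟨s, t, hs, ht, hst, rfl⟩
    have e1 : s • ((t0 : ℂ) * z) + t • z = ((s * t0 + t : ℝ) : ℂ) * z := by
      rw [Complex.real_smul, Complex.real_smul]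
      push_cast
      ring
    rw [e1, norm_mul, Complex.norm_real, Real.norm_of_nonneg (by positivity)]
    have e2 : t0 ≤ s * t0 + t := by nlinarith
    calc L0 = t0 * ‖z‖ := ht0z.symm
      _ ≤ (s * t0 + t) * ‖z‖ := by gcongr
  have h1 : ‖gg a b z - gg a b ((t0 : ℂ) * z)‖ ≤ θ * ‖z - (t0 : ℂ) * z‖ := by
    refine Convex.norm_image_sub_le_of_norm_hasDerivWithin_le (f := gg a b) (f' := dg a b)
      (s := segment ℝ ((t0 : ℂ) * z) z) ?_ ?_ (convex_segment _ _) (left_mem_segment ℝ _ _)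
      (right_mem_segment ℝ _ _)
    · intro y hy
      exact (Pool.Agent.H61.TT.hasDerivAt_gg (hc y (hseg y hy)).1).hasDerivWithinAt
    · intro y hy
      exact (hc y (hseg y hy)).2
  have h2 : ‖z - (t0 : ℂ) * z‖ ≤ ‖z‖ := by
    have e1 : z - (t0 : ℂ) * z = ((1 - t0 : ℝ) : ℂ) * z := by
      push_cast
      ring
    rw [e1, norm_mul, Complex.norm_real, Real.norm_of_nonneg (by linarith)]
    nlinarith
  have h3 : ‖gg a b ((t0 : ℂ) * z)‖ ≤ C0 := by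
    refine hC0 _ ?_
    rw [mem_sphere_zero_iff_norm, norm_mul, Complex.norm_real, Real.norm_of_nonneg ht00.le]
    exact ht0z
  have h4 : gg a b z = (gg a b z - gg a b ((t0 : ℂ) * z)) + gg a b ((t0 : ℂ) * z) := by ring
  rw [h4]
  refine (norm_add_le _ _).trans (add_le_add (h1.trans ?_) (h3.trans (le_max_left _ _)))
  gcongr

theorem inf_rz (h : RZ a b D P) (δ : ℝ) : ∃ A B : ℝ, thickening δ P ⊆ ball 0 A ∧ ∀ z : ℂ, B ≤ ‖z‖ →
    (∀ k : ℕ, (gg a b)^[k] z ∈ UP b) → ∃ m : ℕ, A ≤ ‖(gg a b)^[m] z‖ ∧ ‖(gg a b)^[m] z‖ ≤ B := by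
  obtain ⟨L0, θ, hL0, hθ, hθ1, hc⟩ := h.con
  obtain ⟨L1, c1, hL1, hc1, hlow⟩ := gg_low h
  obtain ⟨C1, hC1, hup⟩ := gg_up h hL0 hθ hc
  obtain ⟨R, hR⟩ := h.Pc.isBounded.subset_closedBall (0 : ℂ)
  obtain ⟨A, hA⟩ : ∃ A : ℝ, A = max 1 (R + δ) := ⟨_, rfl⟩
  have hA1 : 1 ≤ A := hA ▸ le_max_left _ _
  have hA2 : R + δ ≤ A := hA ▸ le_max_right _ _
  obtain ⟨B, hB⟩ : ∃ B : ℝ, B = max A (max (A / c1) (max L0 (max L1 (2 * C1 / (1 - θ))))) := ⟨_, rfl⟩
  have hB1 : A ≤ B := hB ▸ le_max_left _ _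
  have hB2 : A / c1 ≤ B := hB ▸ (le_max_left _ _).trans (le_max_right _ _)
  have hB3 : L0 ≤ B := hB ▸ (le_max_left _ _).trans ((le_max_right _ _).trans (le_max_right _ _))
  have hB4 : L1 ≤ B := hB ▸ (le_max_left _ _).trans ((le_max_right _ _).trans ((le_max_right _ _).trans (le_max_right _ _)))
  have hB5 : 2 * C1 / (1 - θ) ≤ B :=
    hB ▸ (le_max_right _ _).trans ((le_max_right _ _).trans ((le_max_right _ _).trans (le_max_right _ _)))
  have hB0 : 0 < B := by linarith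
  have h1θ : 0 < 1 - θ := by linarith
  obtain ⟨θ', hθ'⟩ : ∃ θ' : ℝ, θ' = (1 + θ) / 2 := ⟨_, rfl⟩
  have hθ'0 : 0 ≤ θ' := by
    rw [hθ']
    positivity
  have hθ'1 : θ' < 1 := by
    rw [hθ']
    linarith
  have hdec : ∀ z : ℂ, B ≤ ‖z‖ → ‖gg a b z‖ ≤ θ' * ‖z‖ := by
    intro z hz
    have e1 := hup z (hB3.trans hz)
    have e2 : 2 * C1 / (1 - θ) ≤ ‖z‖ := hB5.trans hz
    rw [div_le_iff₀ h1θ] at e2
    rw [hθ']
    linarith
  refine ⟨A, B, ?_, fun z hz _ => ?_⟩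
  · intro z hz
    obtain ⟨y, hy, hzy⟩ := mem_thickening_iff.1 hz
    have e1 := mem_closedBall_zero_iff.1 (hR hy)
    rw [dist_eq_norm] at hzy
    rw [mem_ball_zero_iff]
    have e2 : z = (z - y) + y := by ring
    rw [e2]
    refine (norm_add_le _ _).trans_lt ?_
    linarith
  · have hex : ∃ m : ℕ, ‖(gg a b)^[m] z‖ ≤ B := by
      by_contra hno
      push Not at hno
      have e1 : ∀ m : ℕ, ‖(gg a b)^[m] z‖ ≤ θ' ^ m * ‖z‖ := by
        intro m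
        induction m with
        | zero => simp
        | succ m ih =>
          rw [Function.iterate_succ_apply']
          refine (hdec _ (hno m).le).trans ?_
          rw [pow_succ', mul_assoc]
          exact mul_le_mul_of_nonneg_left ih hθ'0
      have e2 : Tendsto (fun m : ℕ => θ' ^ m * ‖z‖) atTop (𝓝 (0 * ‖z‖)) :=
        (tendsto_pow_atTop_nhds_zero_of_lt_one hθ'0 hθ'1).mul_const _
      rw [zero_mul] at e2
      obtain ⟨m, hm⟩ := (e2.eventually (gt_mem_nhds hB0)).exists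
      exact absurd (hno m) (not_lt.2 ((e1 m).trans hm.le))
    classical
    obtain ⟨m, hm, hmin⟩ : ∃ m : ℕ, ‖(gg a b)^[m] z‖ ≤ B ∧ ∀ j < m, B < ‖(gg a b)^[j] z‖ :=
      ⟨Nat.find hex, Nat.find_spec hex, fun j hj => not_le.1 (Nat.find_min hex hj)⟩
    refine ⟨m, ?_, hm⟩
    rcases Nat.eq_zero_or_pos m with h0 | h0
    · rw [h0, Function.iterate_zero_apply]
      exact hB1.trans hz
    · obtain ⟨j, rfl⟩ : ∃ j, m = j + 1 := ⟨m - 1, by omega⟩
      have e1 := hmin j (Nat.lt_succ_self j)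
      rw [Function.iterate_succ_apply']
      have e2 := hlow _ (hB4.trans e1.le)
      rw [div_le_iff₀ hc1] at hB2
      calc A ≤ B * c1 := hB2
        _ ≤ ‖(gg a b)^[j] z‖ * c1 := by gcongr
        _ = c1 * ‖(gg a b)^[j] z‖ := by ring
        _ ≤ _ := e2

theorem leo_rz (h : RZ a b D P) {O : Set ℂ} (hO : IsOpen O) (hn : O.Nonempty) (R : ℝ) :
    ∃ N : ℕ, ∀ n ≥ N, ball 0 R ⊆ (gg a b)^[n] '' (O ∩ oU (gg a b) (UP b) n) := by
  obtain ⟨N, hN⟩ := h.leo ((fun z : ℂ => (z : OnePoint ℂ)) '' O) (OnePoint.isOpenEmbedding_coe.isOpenMap O hO)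
    (hn.image _)
  refine ⟨N, fun n hn y _ => ?_⟩
  obtain ⟨x, ⟨z, hz, rfl⟩, hx⟩ := hN n hn (y : OnePoint ℂ)
  have h1 : (rat a b)^[n] (z : OnePoint ℂ) ≠ OnePoint.infty := by
    rw [hx]
    exact OnePoint.coe_ne_infty _
  obtain ⟨h2, h3⟩ := rat_it h.fi h1
  rw [hx] at h3
  exact ⟨z, ⟨hz, fun j hj => h2 j hj⟩, (OnePoint.coe_injective h3).symm⟩

end Pool.Agent.H66.UX
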