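import Pool.Agent.H66.UX.LCF
import Pool.Agent.H66.UX.INF

/-!
# UD on the sphere, realization: `SS` from `RZ`
-/

set_option autoImplicit false

open Filter Topology Polynomial Metric Set MeasureTheory

namespace Pool.Agent.H66.UX

open Pool.Agent.H44.Fatou (rat rat_continuous rat_coe rat_coe_of_ne pt crit_coe)
open Pool.Agent.H32.BT (IsCrit)
open Pool.Agent.H61.TT (gg dg ww RatD)
open Pool.Agent.H78.UX (oU SS)

variable {a b : Polynomial ℂ} {D : ℕ} {P : Set ℂ}

theorem ss_rz (h : RZ a b D P) {δ : ℝ} (hδ : 0 < δ) : ∃ (η : ℂ → ℂ → ℂ) (ρ : ℝ), SS (gg a b) (UP b) P (CrS a b) δ η ρ := by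
  obtain ⟨hfin, ρ, η, hρ, hη⟩ := nf_ex h
  refine ⟨η, ρ, ?_⟩
  have hd1 : 1 ≤ max a.natDegree b.natDegree := by
    rw [h.rt.deg]
    have := h.rt.hd
    omega
  refine
    { hδ := hδ
      Uo := b.continuous.isOpen_preimage _ isClosed_singleton.isOpen_compl
      fd := fun z hz => (Pool.Agent.H61.TT.hasDerivAt_gg hz).differentiableAt.differentiableWithinAt
      Pc := h.Pc
      Pn := h.Pn
      PU := h.Pb
      Pf := h.Pf
      lift1 := ?_
      leo := fun O hO hn R => leo_rz h hO hn R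
      inf := inf_rz h δ
      Cf := hfin
      CU := fun c hc => hc.1
      CP := fun c hc => (h.cv c hc.1 hc.2).1
      hρ := hρ
      nf := hη
      loc := loc_rz h hρ hδ hη }
  intro S H p q z hp hS ho hH hcv hq hz hfz
  have h5 : ∀ u ∈ S, ∀ c : OnePoint ℂ, IsCrit (rat a b) c → rat a b c ≠ (H u : OnePoint ℂ) := by
    intro u hu c hc he
    obtain ⟨x, rfl, hx⟩ := h.ci c hc
    have h4 : (ww a b).eval x = 0 := crit_coe hc
    rw [rat_coe_of_ne hx] at he
    exact hcv u hu x ⟨hx, h4⟩ (OnePoint.coe_injective he).symm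
  have h6 : rat a b (z : OnePoint ℂ) = (H q : OnePoint ℂ) := by
    rw [rat_coe_of_ne hz]
    exact congrArg _ hfz
  obtain ⟨G, h1, h2, h3⟩ := lft h.rt.cop hd1 h.fi hp hS ho hH h5 hq h6
  exact ⟨G, h1, h2, h3⟩

end Pool.Agent.H66.UX
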