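import Pool.Agent.H66.UX.NCS

/-!
# [H66 UX SXE] UD on the sphere, realization: `SX` from the fields

PROOF. Write `f = gg a b`, `U = UP b`. The set of the poles `Uᶜ` is finite (`b ≠ 0`: `b_ne`, H61/TT/Fib). `S = Uᶜ ∪ P` is a null set, so `(pre a b)^[k] S` is a null set for every `k` (`null_pre`, H61/TT/Area, induction), `N = ⋃ k, (pre a b)^[k] S` is a null set. `z ∉ N` implies: for all `k` `f^[k] z ∈ U` and `f^[k] z ∉ P` (strong induction on `k`: if `f^[j] z ∈ U` for all `j < k` then `z ∈ (pre a b)^[k] S ↔ f^[k] z ∈ S`; `mem_pre`, H3/NC/BRN or H66/UP/GS).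
Inner regularity: `E \ toMeasurable volume N` is measurable, with positive finite measure: a compact `E' ⊆ E \ toMeasurable volume N` with `0 < volume E'` (`MeasurableSet.exists_lt_isCompact`).
The fields of `SX`: `hX` for the index `i0`, restricted to `E'`; `nc` from `nc_s` (NCS).
-/

set_option autoImplicit false

open Filter Topology Polynomial Metric Set MeasureTheory

namespace Pool.Agent.H66.UX

open Pool.Agent.H61.TT (gg dg ww RatD)
open Pool.Agent.H78.UX (oU SS SX)
open Pool.Agent.H66.IL (SFX TT)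

private theorem sxe_mem {a b : Polynomial ℂ} (m : ℕ) {S : Set ℂ} {z : ℂ}
    (h1 : ∀ i < m, b.eval ((gg a b)^[i] z) ≠ 0) (h2 : (gg a b)^[m] z ∈ S) :
    z ∈ (Pool.Agent.H61.TT.pre a b)^[m] S := by
  induction m generalizing z with
  | zero => exact h2
  | succ m ih =>
    rw [Function.iterate_succ_apply']
    refine ⟨h1 0 (by omega), ih (fun i hi => ?_) h2⟩
    exact h1 (i + 1) (by omega)

private theorem sxe_null {a b : Polynomial ℂ} {D : ℕ} (hrt : RatD D a b) {S : Set ℂ}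
    (hS : volume S = 0) (k : ℕ) : volume ((Pool.Agent.H61.TT.pre a b)^[k] S) = 0 := by
  induction k with
  | zero => exact hS
  | succ k ih =>
    rw [Function.iterate_succ_apply']
    exact Pool.Agent.H61.TT.null_pre hrt ih

private theorem sxe_pole {a b : Polynomial ℂ} {D : ℕ} (hrt : RatD D a b) : volume (UP b)ᶜ = 0 := by
  have hb : b ≠ 0 := Pool.Agent.H61.TT.b_ne hrt
  have h1 : (UP b)ᶜ ⊆ (b.roots.toFinset : Set ℂ) := by
    intro z hz
    have h2 : b.eval z = 0 := not_not.1 hz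
    rw [Finset.mem_coe, Multiset.mem_toFinset, mem_roots hb]
    exact h2
  exact ((Finset.finite_toSet _).subset h1).measure_zero _

theorem sx_of {a b : Polynomial ℂ} {D : ℕ} (hrt : RatD D a b) {P Cr E : Set ℂ} {δ ρ : ℝ} {η : ℂ → ℂ → ℂ}
    (h : SS (gg a b) (UP b) P Cr δ η ρ) {n : ℕ} {X hh μ : Fin n → ℂ → ℂ} {i0 : Fin n} {b0 : ℝ}
    (hX : SFX (gg a b) (UP b) E n X hh μ i0 b0) (hP : volume P = 0) :
    ∃ E' : Set ℂ, SX (gg a b) (UP b) P E' (X i0) (hh i0) (μ i0) b0 := by
  set S : Set ℂ := (UP b)ᶜ ∪ P with hS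
  have hS0 : volume S = 0 := measure_union_null (sxe_pole hrt) hP
  set N : Set ℂ := ⋃ k : ℕ, (Pool.Agent.H61.TT.pre a b)^[k] S with hN
  have hN0 : volume N = 0 := measure_iUnion_null fun k => sxe_null hrt hS0 k
  have hor : ∀ z, z ∉ N → ∀ k : ℕ, (gg a b)^[k] z ∈ UP b ∧ (gg a b)^[k] z ∉ P := by
    intro z hz k
    induction k using Nat.strong_induction_on with
    | _ k ih =>
      have h1 : (gg a b)^[k] z ∉ S := by
        intro h2
        refine hz (mem_iUnion.2 ⟨k, sxe_mem k (fun i hi => (ih i hi).1) h2⟩)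
      rw [hS, mem_union, not_or] at h1
      exact ⟨not_not.1 h1.1, h1.2⟩
  have hE0 : 0 < volume (E \ toMeasurable volume N) := by
    rw [measure_sdiff_null (by rw [measure_toMeasurable, hN0])]
    exact hX.Ep
  have hEm : MeasurableSet (E \ toMeasurable volume N) :=
    hX.Ec.isClosed.measurableSet.diff (measurableSet_toMeasurable _ _)
  obtain ⟨E', hE', hEc, hEp⟩ := hEm.exists_lt_isCompact hE0
  have hEE : ∀ z ∈ E', z ∈ E := fun z hz => (hE' hz).1
  have hEN : ∀ z ∈ E', z ∉ N := fun z hz h1 => (hE' hz).2 (subset_toMeasurable _ _ h1)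
  refine ⟨E', ?_⟩
  exact {
    hb := hX.hb
    Xc := hX.Xc i0
    hd := hX.hd i0
    eq := hX.eq i0
    Ec := hEc
    EU := fun z hz k => (hor z (hEN z hz) k).1
    EP := fun z hz k => (hor z (hEN z hz) k).2
    Ep := hEp
    lb := fun z hz => ⟨hX.lb z (hEE z hz), hX.up i0 z (hEE z hz)⟩
    T := fun ε hε => by
      obtain ⟨ρ', h1, h2⟩ := hX.T ε hε
      exact ⟨ρ', h1, fun z hz r hr hr' => h2 i0 z (hEE z hz) r hr hr'⟩
    nc := fun δ' M R0 hδ' => by
      obtain ⟨ε, h1, h2⟩ := nc_s h hX (δ' := δ') (M := M) (R0 := R0) hδ'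
      exact ⟨ε, h1, fun z hz => h2 z (hEE z hz)⟩ }

end Pool.Agent.H66.UX
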