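import Pool.Agent.H66.UX.RZC
import Pool.Agent.H66.UX.SSR
import Pool.Agent.H66.UX.SXE
import Pool.Agent.H66.IL.FXS

/-!
# UD on the sphere, realization: the final forms

`rz_ex`: the iterate `(Rf v)^[N]` in the chart `em q` (`q` periodic of period `N`, outside the postcritical set). `r1`: the setting `SS`. `r2`: the fields `SX` if the postcritical set is a null set.
-/

set_option autoImplicit false

open Filter Topology Polynomial Metric Set MeasureTheory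

namespace Pool.Agent.H66.UX

open Pool.Agent.H44.Fatou (rat rat_continuous rat_coe rat_coe_of_ne pt crit_coe)
open Pool.Agent.H32.BT Pool.Agent.H79.Eul Pool.Agent.H79.Par
open Pool.Agent.H35.EX Pool.Agent.H44.RR Pool.Agent.H56.HR Pool.Agent.H44.RC Pool.Agent.H47.RJ
open Pool.Agent.H47.NM Pool.Agent.H47.NN Pool.Agent.H44.ND Pool.Agent.H79.ES Pool.Agent.H44.RG
open Pool.Agent.H44.CP Pool.Agent.H47.PS Pool.Agent.H64.NC
open Pool.Agent.H61.TT (gg dg ww RatD)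
open Pool.Agent.H64.JS (KJ)
open Pool.Agent.H66.IL (em SFX)
open Pool.Agent.H78.UX (oU SX)

variable {d : ℕ} {v : E d} {q : ℂ} {N : ℕ}

/-- the postcritical set in the chart `em q` -/
def Pq (v : E d) (q : ℂ) : Set ℂ := {w : ℂ | em q w ∈ PCs v}

theorem rz_ex (hd : 2 ≤ d) (hcop : IsCoprime (pol v.1) (pol v.2))
    (hdeg : max (pol v.1).natDegree (pol v.2).natDegree = d) (hup : ¬ Up v) (hJ : JS (Rf v) = univ)
    (h0 : Rf v ((0 : ℂ) : OnePoint ℂ) = ((0 : ℂ) : OnePoint ℂ))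
    (h1 : Rf v ((1 : ℂ) : OnePoint ℂ) = ((1 : ℂ) : OnePoint ℂ)) (hi : Rf v OnePoint.infty = OnePoint.infty)
    (hN : 1 ≤ N) (hq : (Rf v)^[N] (q : OnePoint ℂ) = (q : OnePoint ℂ)) (hP : (q : OnePoint ℂ) ∉ PCs v) :
    ∃ A B : Polynomial ℂ, RZ A B (d ^ N) (Pq v q) ∧
      ∀ w : ℂ, B.eval w ≠ 0 → (Rf v)^[N] (em q w) = em q (gg A B w) := by
  obtain ⟨φ, A, B, h⟩ := rq_ex hd hcop hdeg hN q
  obtain ⟨h2, h3, h4⟩ := rq_P hd hcop hdeg hJ h hP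
  refine ⟨A, B, ⟨h.rt, rq_inf h hq, h2, h3, fun z hz => (h4 z hz).1, fun z hz => (h4 z hz).2, ?_, ?_, ?_, ?_⟩,
    fun w hw => rq_gg h hw⟩
  · intro c hc
    obtain ⟨z, h5, h6, -⟩ := rq_ci hcop hJ h hq hP hc
    exact ⟨z, h5, h6⟩
  · intro c hc hw
    refine ⟨?_, rq_sim hd hcop hdeg hup hJ h0 h1 hi h hq hP hc hw⟩
    have hd1 : 1 ≤ max A.natDegree B.natDegree := by
      rw [h.rt.deg]
      have := h.rt.hd
      omega
    obtain ⟨z, h5, -, h6, -⟩ := rq_ci hcop hJ h hq hP (crit_of_wr h.rt.cop hd1 hw)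
    rw [OnePoint.coe_injective h5]
    exact h6
  · exact fun O hO hn => rq_leo hd hcop hdeg hup hJ h hN hO hn
  · exact rq_con hd hcop hdeg hup hJ hi h hN hq

/-- (R1) -/
theorem r1 {A B : Polynomial ℂ} {D : ℕ} {P : Set ℂ} (h : RZ A B D P) {δ : ℝ} (hδ : 0 < δ) :
    ∃ (η : ℂ → ℂ → ℂ) (ρ : ℝ), Pool.Agent.H78.UX.SS (gg A B) (UP B) P (CrS A B) δ η ρ := ss_rz h hδ

/-- (R2) -/
theorem r2 (hd : 2 ≤ d) (hcop : IsCoprime (pol v.1) (pol v.2))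
    (hdeg : max (pol v.1).natDegree (pol v.2).natDegree = d) (hup : ¬ Up v) (hJ : JS (Rf v) = univ)
    (h0 : Rf v ((0 : ℂ) : OnePoint ℂ) = ((0 : ℂ) : OnePoint ℂ))
    (h1 : Rf v ((1 : ℂ) : OnePoint ℂ) = ((1 : ℂ) : OnePoint ℂ)) (hi : Rf v OnePoint.infty = OnePoint.infty)
    {A B : Polynomial ℂ} {D : ℕ} {P : Set ℂ} (h : RZ A B D P)
    (he : ∀ w : ℂ, B.eval w ≠ 0 → (Rf v)^[N] (em q w) = em q (gg A B w)) (hv : volume P = 0) {δ ρ : ℝ} {η : ℂ → ℂ → ℂ}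
    (hS : Pool.Agent.H78.UX.SS (gg A B) (UP B) P (CrS A B) δ η ρ) :
    ∃ (E : Set ℂ) (X hh μ : ℂ → ℂ) (b0 : ℝ), SX (gg A B) (UP B) P E X hh μ b0 := by
  obtain ⟨E, Y, hh, μ, i0, b0, hX⟩ := Pool.Agent.H66.IL.fxs (U := UP B) hd hcop hdeg hup hJ h0 h1 hi hS.Uo hS.fd
    (fun w hw => he w hw)
  obtain ⟨E', hE'⟩ := sx_of h.rt hS hX hv
  exact ⟨E', Y i0, hh i0, μ i0, b0, hE'⟩

end Pool.Agent.H66.UX
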