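import Pool.Agent.H78.UX.Defs
import Pool.Agent.H66.IL.SDF
import Pool.Agent.H64.NC.PAS

/-!
# THEOREM UD, Julia set = sphere, realization: definitions

`RZ a b D P`: the data of the rational map `rat a b` of degree `D` in the plane: `∞` is a repelling fixed point, `P` compact and forward invariant, all critical points are in the plane, not poles, simple, with values in `P`; `leo`: exactness; `con`: `‖(a / b)'‖ ≤ θ < 1` near infinity.
-/

set_option autoImplicit false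

open Filter Topology Polynomial Metric Set MeasureTheory

namespace Pool.Agent.H66.UX

open Pool.Agent.H44.Fatou (rat)
open Pool.Agent.H32.BT (IsCrit)
open Pool.Agent.H61.TT (gg dg ww RatD)

/-- the map in the plane -/
structure RZ (a b : Polynomial ℂ) (D : ℕ) (P : Set ℂ) : Prop where
  rt : RatD D a b
  fi : rat a b OnePoint.infty = OnePoint.infty
  Pc : IsCompact P
  Pn : P.Nonempty
  Pb : ∀ z ∈ P, b.eval z ≠ 0
  Pf : ∀ z ∈ P, gg a b z ∈ P
  ci : ∀ c : OnePoint ℂ, IsCrit (rat a b) c → ∃ z : ℂ, c = (z : OnePoint ℂ) ∧ b.eval z ≠ 0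
  cv : ∀ c : ℂ, b.eval c ≠ 0 → (ww a b).eval c = 0 → gg a b c ∈ P ∧ (derivative (ww a b)).eval c ≠ 0
  leo : ∀ O : Set (OnePoint ℂ), IsOpen O → O.Nonempty → ∃ N : ℕ, ∀ n ≥ N, ∀ y, ∃ x ∈ O, (rat a b)^[n] x = y
  con : ∃ L0 θ : ℝ, 0 < L0 ∧ 0 < θ ∧ θ < 1 ∧ ∀ z : ℂ, L0 ≤ ‖z‖ → b.eval z ≠ 0 ∧ ‖dg a b z‖ ≤ θ

/-- the critical points -/
def CrS (a b : Polynomial ℂ) : Set ℂ := {c | b.eval c ≠ 0 ∧ (ww a b).eval c = 0}

/-- the complement of the poles -/
def UP (b : Polynomial ℂ) : Set ℂ := {z | b.eval z ≠ 0}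

end Pool.Agent.H66.UX
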