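import Pool.Agent.H66.UX.Defs
import Pool.Agent.H43.UB.UM

/-!
# [H66 UX NCS] UD on the sphere, realization: no cones

`it_eq`. PROOF. Induction on `k`. `oU f U k` is open (`f` is continuous on `U`; `oU f U (k + 1) = oU f U k ∩ {x | f^[k] x ∈ U}` and `f^[k]` is continuous on `oU f U k`), `f^[k]` is differentiable on it, `deriv f^[k + 1] x = deriv f (f^[k] x) * deriv f^[k] x` (chain rule). `H_(k + 1) x = deriv f (f^[k] x) * H_k x + h (f^[k] x)` (`deriv f` is holomorphic on the open set `U`: `DifferentiableOn.deriv`).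

`hol_ext`. PROOF. Let `w` be any point of the plane. By `h.leo` for `O = ball y r` and `R = ‖w‖ + 1` there is `N` with: for all `n ≥ N` there is `x ∈ ball y r ∩ oU f U n` with `f^[n] x = w`. Fix `n = N`, `x`, `F = f^[n]`. `X (F x') = deriv F x' * X x' + H x'` (`it_eq`) is differentiable for `x'` in the open set `O1 = ball y r ∩ oU f U n ∋ x`. `F` is not constant near `x`: if `F = w` on a ball `O2 ∋ x` then by `h.leo` for `O2` some `f^[n'] '' (O2 ∩ ..)`, `n' ≥ n`, contains `ball 0 1`, but it has one point only.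
So `F` is open at `x` (`AnalyticAt.eventually_constant_or_nhds_le_map_nhds`) and `deriv F x' ≠ 0` for `x' ≠ x` near `x` (otherwise `deriv F = 0` near `x`, identity theorem, `F` constant near `x`). For every neighbourhood `O3` of `x` in which this holds `F '' O3` is a neighbourhood of `w`; for `w' ∈ F '' O3`, `w' ≠ w`: `w' = F x'`, `x' ∈ O3`, `x' ≠ x`, `deriv F x' ≠ 0`, so `F` has a local inverse `G` at `w'` (`HasStrictDerivAt.localInverse`), `X = (X ∘ F) ∘ G` near `w'` is differentiable at `w'`. `X` is continuous at `w`: removable singularity (`Complex.analyticAt_of_differentiable_on_punctured_nhds_of_continuousAt`).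

`nc_app`. PROOF. `M > 0`. `f^[k] (G u) = u` gives `deriv f^[k] (G u) * deriv G u = 1`. `it_eq`: `X i u = X i (G u) / deriv G u + H i (G u)`. `ρ` from `hX.T` for `ε1`; `r = 2 M σ < ρ`: `A i` holomorphic on `ball z r`, `‖X i w - μ i z conj (w - z) - A i w‖ ≤ ε1 r` there; `‖G u - z‖ ≤ M σ < r`. So with `Φ u = ∑ c i (A i (G u) / deriv G u + H i (G u))`, differentiable on `B`:
`‖∑ c i X i u - Φ u‖ ≤ (‖∑ c i μ i z‖ M σ + (∑ ‖c i‖) ε1 2 M σ) / ‖deriv G u‖` and `‖deriv G u‖ ≥ c0 σ` for `u ∈ B`.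

`nc_s`. PROOF. Suppose not: for every `m` there are `z m ∈ E`, `k m`, `y m`, `σ m < 1 / (m + 1)`, `G m`. `𝒰` = an ultrafilter finer than `atTop` (`Filter.hyperfilter ℕ`). `y m → yi`, `μ i (z m) → β i` along `𝒰` (`ul_ex`, H43/UB/UM; `hX.up`). `g m u = (G m u - z m) / σ m` on `S = ball yi (δ' / 2)` (eventually `S ⊆ ball (y m) δ'`), bounded by `M`: `um`: `g m → γ` locally uniformly on `S`, `deriv (g m) → deriv γ` locally uniformly (`TendstoLocallyUniformlyOn.deriv`), `‖deriv (g m) (y m)‖ ≥ 1 / M`, so `‖deriv γ yi‖ ≥ 1 / M`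
(`TendstoLocallyUniformlyOn.tendsto_comp`). There is a ball `B = ball yi s`, `closedBall yi s ⊆ S`, with `‖deriv (g m) u‖ ≥ 1 / (2 M)` for `u ∈ B`, eventually: `‖deriv (G m) u‖ ≥ σ m / (2 M)`. `c` from `hX.dim β`: `∑ c i μ i (z m) → 0`. `nc_app` (with `c0 = 1 / (2 M)`): for every `ε > 0` there is a holomorphic `Φ` on `B` with `‖∑ c i X i u - Φ u‖ ≤ ε` on `B`. So `∑ c i X i` is differentiable on `B` (`TendstoLocallyUniformlyOn.differentiableOn` with `ε = 1 / (j + 1)`); it satisfies the equation with `∑ c i hh i`; `hol_ext`: it is entire, contradiction to the choice of `c`.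
-/

set_option autoImplicit false

open Filter Topology Metric Set MeasureTheory

namespace Pool.Agent.H66.UX

open Pool.Agent.H78.UX (oU SS SX)
open Pool.Agent.H66.IL (SFX TT)

variable {f : ℂ → ℂ} {U P Cr E : Set ℂ} {δ ρ : ℝ} {η : ℂ → ℂ → ℂ}

theorem it_eq (hU : IsOpen U) (hf : DifferentiableOn ℂ f U) {X h : ℂ → ℂ} (hh : DifferentiableOn ℂ h U)
    (he : ∀ z ∈ U, X (f z) = deriv f z * X z + h z) (k : ℕ) : IsOpen (oU f U k) ∧ DifferentiableOn ℂ f^[k] (oU f U k) ∧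
    ∃ H : ℂ → ℂ, DifferentiableOn ℂ H (oU f U k) ∧ ∀ x ∈ oU f U k, X (f^[k] x) = deriv f^[k] x * X x + H x := by
  induction k with
  | zero =>
    have h0 : oU f U 0 = univ := eq_univ_of_forall fun z j hj => absurd hj (Nat.not_lt_zero j)
    rw [h0]
    refine ⟨isOpen_univ, ?_, fun _ => 0, differentiableOn_const 0, ?_⟩
    · rw [Function.iterate_zero]
      exact differentiableOn_id
    · intro x _
      have h1 : deriv (f^[0]) x = 1 := by
        rw [Function.iterate_zero]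
        exact deriv_id x
      rw [h1, Function.iterate_zero_apply]
      ring
  | succ k ih =>
    obtain ⟨hO, hd, H, hH, hE⟩ := ih
    have h1 : oU f U (k + 1) = oU f U k ∩ f^[k] ⁻¹' U := by
      ext z
      constructor
      · intro hz
        exact ⟨fun j hj => hz j (Nat.lt_succ_of_lt hj), hz k (Nat.lt_succ_self k)⟩
      · rintro ⟨a, b⟩ j hj
        rcases Nat.lt_succ_iff_lt_or_eq.1 hj with h | h
        · exact a j h
        · subst h
          exact b
    have hO' : IsOpen (oU f U (k + 1)) := by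
      rw [h1]
      exact hd.continuousOn.isOpen_inter_preimage hO hU
    have hmem : ∀ x ∈ oU f U (k + 1), x ∈ oU f U k ∧ f^[k] x ∈ U := fun x hx => by
      rw [h1] at hx
      exact hx
    have hdk : ∀ x ∈ oU f U (k + 1), HasDerivAt f^[k] (deriv f^[k] x) x := fun x hx =>
      ((hd x (hmem x hx).1).differentiableAt (hO.mem_nhds (hmem x hx).1)).hasDerivAt
    have hdf : ∀ x ∈ oU f U (k + 1), HasDerivAt f (deriv f (f^[k] x)) (f^[k] x) := fun x hx =>
      ((hf _ (hmem x hx).2).differentiableAt (hU.mem_nhds (hmem x hx).2)).hasDerivAt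
    have hdd : ∀ x ∈ oU f U (k + 1), HasDerivAt f^[k + 1] (deriv f (f^[k] x) * deriv f^[k] x) x := by
      intro x hx
      rw [Function.iterate_succ']
      exact (hdf x hx).comp x (hdk x hx)
    refine ⟨hO', fun x hx => (hdd x hx).differentiableAt.differentiableWithinAt,
      fun x => deriv f (f^[k] x) * H x + h (f^[k] x), ?_, ?_⟩
    · have hdf' : DifferentiableOn ℂ (deriv f) U := hf.deriv hU
      have hk : DifferentiableOn ℂ f^[k] (oU f U (k + 1)) := hd.mono fun x hx => (hmem x hx).1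
      have hm : MapsTo f^[k] (oU f U (k + 1)) U := fun x hx => (hmem x hx).2
      exact ((hdf'.comp hk hm).mul (hH.mono fun x hx => (hmem x hx).1)).add (hh.comp hk hm)
    · intro x hx
      rw [(hdd x hx).deriv, Function.iterate_succ_apply', he _ (hmem x hx).2, hE x (hmem x hx).1]
      ring

theorem hol_ext (h : SS f U P Cr δ η ρ) {X hh : ℂ → ℂ} (hX : Continuous X) (hhd : DifferentiableOn ℂ hh U)
    (he : ∀ z ∈ U, X (f z) = deriv f z * X z + hh z) {y : ℂ} {r : ℝ} (hr : 0 < r) (hd : DifferentiableOn ℂ X (ball y r)) :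
    Differentiable ℂ X := by
  intro w
  obtain ⟨N, hN⟩ := h.leo (ball y r) isOpen_ball ⟨y, mem_ball_self hr⟩ (‖w‖ + 1)
  obtain ⟨x, ⟨hx1, hx2⟩, hx3⟩ := hN N le_rfl (show w ∈ ball (0 : ℂ) (‖w‖ + 1) by
    rw [mem_ball_zero_iff]
    linarith)
  obtain ⟨hO, hF, H, hH, hE⟩ := it_eq h.Uo h.fd hhd he N
  have hO1 : IsOpen (ball y r ∩ oU f U N) := isOpen_ball.inter hO
  have hFa : ∀ x' ∈ ball y r ∩ oU f U N, AnalyticAt ℂ f^[N] x' := fun x' hx' =>
    hF.analyticAt (hO.mem_nhds hx'.2)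
  -- `X ∘ F` is differentiable on the open set
  have hXF : ∀ x' ∈ ball y r ∩ oU f U N, DifferentiableAt ℂ (fun v => X (f^[N] v)) x' := by
    intro x' hx'
    have e1 : DifferentiableAt ℂ (fun v => deriv f^[N] v * X v + H v) x' :=
      (((hFa x' hx').deriv.differentiableAt).mul
        ((hd x' hx'.1).differentiableAt (isOpen_ball.mem_nhds hx'.1))).add
        ((hH x' hx'.2).differentiableAt (hO.mem_nhds hx'.2))
    refine e1.congr_of_eventuallyEq ?_
    filter_upwards [hO.mem_nhds hx'.2] with v hv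
    exact hE v hv
  -- `F` is not constant near `x`
  have hnc : ¬ ∀ᶠ z in 𝓝 x, f^[N] z = f^[N] x := by
    intro hcon
    obtain ⟨r2, hr2, hr3⟩ := Metric.eventually_nhds_iff_ball.1 hcon
    obtain ⟨N', hN'⟩ := h.leo (ball x r2) isOpen_ball ⟨x, mem_ball_self hr2⟩ 1
    obtain ⟨a, ⟨ha1, -⟩, ha2⟩ := hN' (N' + N) (by omega) (show (0 : ℂ) ∈ ball (0 : ℂ) 1 from
      mem_ball_self one_pos)
    obtain ⟨b, ⟨hb1, -⟩, hb2⟩ := hN' (N' + N) (by omega) (show (1 / 2 : ℂ) ∈ ball (0 : ℂ) 1 by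
      rw [mem_ball_zero_iff]
      norm_num)
    rw [Function.iterate_add_apply, hr3 a ha1] at ha2
    rw [Function.iterate_add_apply, hr3 b hb1, ha2] at hb2
    norm_num at hb2
  have hxO : x ∈ ball y r ∩ oU f U N := ⟨hx1, hx2⟩
  have hopen : 𝓝 w ≤ map f^[N] (𝓝 x) := by
    have h1 := (hFa x hxO).eventually_constant_or_nhds_le_map_nhds.resolve_left hnc
    rwa [hx3] at h1
  have hdne : ∀ᶠ z in 𝓝[≠] x, deriv f^[N] z ≠ 0 := by
    refine (hFa x hxO).deriv.eventually_eq_zero_or_eventually_ne_zero.resolve_left fun hz => hnc ?_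
    obtain ⟨r2, hr2, hr3⟩ := Metric.eventually_nhds_iff_ball.1 (hz.and (hO1.mem_nhds hxO))
    refine Metric.eventually_nhds_iff_ball.2 ⟨r2, hr2, fun v hv => ?_⟩
    exact isOpen_ball.is_const_of_deriv_eq_zero (convex_ball x r2).isPreconnected
      (fun z hz' => (hFa z (hr3 z hz').2).differentiableAt.differentiableWithinAt)
      (fun z hz' => (hr3 z hz').1) hv (mem_ball_self hr2)
  -- differentiable near `w`
  have hpt : ∀ᶠ w' in 𝓝[≠] w, DifferentiableAt ℂ X w' := by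
    rw [eventually_nhdsWithin_iff] at hdne ⊢
    have hO3 : {x' | x' ∈ ball y r ∩ oU f U N ∧ (x' ∈ ({x}ᶜ : Set ℂ) → deriv f^[N] x' ≠ 0)} ∈ 𝓝 x := by
      filter_upwards [hO1.mem_nhds hxO, hdne] with v h1 h2
      exact ⟨h1, h2⟩
    have hIm := hopen (image_mem_map hO3)
    filter_upwards [hIm] with w' hw' hne
    obtain ⟨x', ⟨hx'1, hx'2⟩, rfl⟩ := hw'
    have hxx : x' ∈ ({x}ᶜ : Set ℂ) := by
      intro hq
      rw [mem_singleton_iff] at hq
      subst hq
      exact hne hx3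
    have hd0 := hx'2 hxx
    have hsd : HasStrictDerivAt f^[N] (deriv f^[N] x') x' := (hFa x' hx'1).hasStrictDerivAt
    have hGd := (hsd.to_localInverse hd0).hasDerivAt.differentiableAt
    have hG0 : hsd.localInverse _ _ _ hd0 (f^[N] x') = x' := (hsd.eventually_left_inverse hd0).self_of_nhds
    have hcomp : DifferentiableAt ℂ (fun v => X (f^[N] (hsd.localInverse _ _ _ hd0 v))) (f^[N] x') := by
      refine DifferentiableAt.comp (g := fun v => X (f^[N] v)) (f^[N] x') ?_ hGd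
      rw [hG0]
      exact hXF x' hx'1
    refine hcomp.congr_of_eventuallyEq ?_
    filter_upwards [hsd.eventually_right_inverse hd0] with v hv
    rw [hv]
  exact (Complex.analyticAt_of_differentiable_on_punctured_nhds_of_continuousAt hpt
    hX.continuousAt).differentiableAt

theorem nc_app (hU : IsOpen U) (hf : DifferentiableOn ℂ f U) {n : ℕ} {X hh μ : Fin n → ℂ → ℂ} {i0 : Fin n} {b0 : ℝ}
    (hX : SFX f U E n X hh μ i0 b0) (c : Fin n → ℂ) {M c0 ε1 : ℝ} (hM : 0 < M) (hc0 : 0 < c0) (hε : 0 < ε1) :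
    ∃ ρ : ℝ, 0 < ρ ∧ ∀ z ∈ E, ∀ (k : ℕ) (σ : ℝ) (G : ℂ → ℂ) (B : Set ℂ), IsOpen B → 0 < σ → 2 * M * σ < ρ →
      DifferentiableOn ℂ G B → (∀ u ∈ B, G u ∈ oU f U k ∧ f^[k] (G u) = u ∧ ‖G u - z‖ ≤ M * σ ∧ c0 * σ ≤ ‖deriv G u‖) →
      ∃ Φ : ℂ → ℂ, DifferentiableOn ℂ Φ B ∧ ∀ u ∈ B, ‖∑ i, c i * X i u - Φ u‖ ≤
        ‖∑ i, c i * μ i z‖ * M / c0 + (∑ i, ‖c i‖) * ε1 * (2 * M) / c0 := by
  obtain ⟨ρ, hρ, hT⟩ := hX.T ε1 hε
  refine ⟨ρ, hρ, ?_⟩
  intro z hz k σ G B hB hσ hσρ hG hGu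
  have hr0 : 0 < 2 * M * σ := by positivity
  have hMσ : M * σ < 2 * M * σ := by nlinarith [mul_pos hM hσ]
  choose A hA1 hA2 using fun i => hT i z hz (2 * M * σ) hr0 hσρ
  have hit := fun i => it_eq hU hf (hX.hd i) (hX.eq i) k
  have hO := (it_eq hU hf (h := fun _ => 0) (X := fun _ => 0) (differentiableOn_const 0)
    (fun z _ => by ring) k).1
  have hFk := (it_eq hU hf (h := fun _ => 0) (X := fun _ => 0) (differentiableOn_const 0)
    (fun z _ => by ring) k).2.1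
  choose H hH1 hH2 using fun i => (hit i).2.2
  have hGball : ∀ u ∈ B, G u ∈ ball z (2 * M * σ) := fun u hu => by
    rw [mem_ball, dist_eq_norm]
    exact (hGu u hu).2.2.1.trans_lt hMσ
  have hGd : ∀ u ∈ B, HasDerivAt G (deriv G u) u := fun u hu =>
    ((hG u hu).differentiableAt (hB.mem_nhds hu)).hasDerivAt
  have hdne : ∀ u ∈ B, deriv G u ≠ 0 := fun u hu h0 => by
    have h1 := (hGu u hu).2.2.2
    rw [h0, norm_zero] at h1
    have h2 : 0 < c0 * σ := mul_pos hc0 hσ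
    linarith
  have hchain : ∀ u ∈ B, deriv f^[k] (G u) * deriv G u = 1 := by
    intro u hu
    have h1 : HasDerivAt f^[k] (deriv f^[k] (G u)) (G u) :=
      ((hFk _ (hGu u hu).1).differentiableAt (hO.mem_nhds (hGu u hu).1)).hasDerivAt
    have h2 := h1.comp u (hGd u hu)
    have h3 : HasDerivAt (f^[k] ∘ G) 1 u := by
      refine (hasDerivAt_id u).congr_of_eventuallyEq ?_
      filter_upwards [hB.mem_nhds hu] with v hv
      exact (hGu v hv).2.1
    exact h2.unique h3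
  refine ⟨fun u => ∑ i, c i * (A i (G u) / deriv G u + H i (G u)), ?_, ?_⟩
  · refine DifferentiableOn.fun_sum fun i _ => ?_
    refine (differentiableOn_const _).mul ?_
    refine DifferentiableOn.add (DifferentiableOn.div ?_ (hG.deriv hB) hdne) ?_
    · exact (hA1 i).comp hG fun u hu => hGball u hu
    · exact (hH1 i).comp hG fun u hu => (hGu u hu).1
  · intro u hu
    obtain ⟨h1, h2, h3, h4⟩ := hGu u hu
    have hne := hdne u hu
    have hXu : ∀ i, X i u = X i (G u) / deriv G u + H i (G u) := by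
      intro i
      have h5 := hH2 i (G u) h1
      rw [h2] at h5
      rw [h5]
      have h6 := hchain u hu
      have h7 : deriv f^[k] (G u) = 1 / deriv G u := by
        rw [eq_div_iff hne]
        exact h6
      rw [h7]
      ring
    have hS : ∑ i, c i * X i u - ∑ i, c i * (A i (G u) / deriv G u + H i (G u)) =
        ((∑ i, c i * μ i z) * (starRingEnd ℂ) (G u - z) +
          ∑ i, c i * (X i (G u) - μ i z * (starRingEnd ℂ) (G u - z) - A i (G u))) / deriv G u := by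
      rw [← Finset.sum_sub_distrib, Finset.sum_mul, ← Finset.sum_add_distrib, Finset.sum_div]
      refine Finset.sum_congr rfl fun i _ => ?_
      rw [hXu i]
      ring
    show ‖∑ i, c i * X i u - ∑ i, c i * (A i (G u) / deriv G u + H i (G u))‖ ≤ _
    rw [hS, norm_div]
    have hnum : ‖(∑ i, c i * μ i z) * (starRingEnd ℂ) (G u - z) +
          ∑ i, c i * (X i (G u) - μ i z * (starRingEnd ℂ) (G u - z) - A i (G u))‖ ≤
        ‖∑ i, c i * μ i z‖ * (M * σ) + (∑ i, ‖c i‖) * (ε1 * (2 * M * σ)) := by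
      refine (norm_add_le _ _).trans (add_le_add ?_ ?_)
      · rw [norm_mul]
        refine mul_le_mul_of_nonneg_left ?_ (norm_nonneg _)
        rw [RCLike.norm_conj]
        exact h3
      · rw [Finset.sum_mul]
        refine (norm_sum_le _ _).trans (Finset.sum_le_sum fun i _ => ?_)
        rw [norm_mul]
        exact mul_le_mul_of_nonneg_left (hA2 i (G u) (hGball u hu)) (norm_nonneg _)
    have hnum0 : 0 ≤ ‖∑ i, c i * μ i z‖ * (M * σ) + (∑ i, ‖c i‖) * (ε1 * (2 * M * σ)) := by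
      have : 0 ≤ ∑ i, ‖c i‖ := Finset.sum_nonneg fun i _ => norm_nonneg _
      positivity
    calc ‖(∑ i, c i * μ i z) * (starRingEnd ℂ) (G u - z) +
          ∑ i, c i * (X i (G u) - μ i z * (starRingEnd ℂ) (G u - z) - A i (G u))‖ / ‖deriv G u‖
        ≤ (‖∑ i, c i * μ i z‖ * (M * σ) + (∑ i, ‖c i‖) * (ε1 * (2 * M * σ))) / (c0 * σ) :=
          div_le_div₀ hnum0 hnum (mul_pos hc0 hσ) h4
      _ = ‖∑ i, c i * μ i z‖ * M / c0 + (∑ i, ‖c i‖) * ε1 * (2 * M) / c0 := by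
          field_simp

theorem nc_s (h : SS f U P Cr δ η ρ) {n : ℕ} {X hh μ : Fin n → ℂ → ℂ} {i0 : Fin n} {b0 : ℝ}
    (hX : SFX f U E n X hh μ i0 b0) {δ' M R0 : ℝ} (hδ' : 0 < δ') : ∃ ε : ℝ, 0 < ε ∧
    ∀ z ∈ E, ∀ (k : ℕ) (y : ℂ) (σ : ℝ) (G : ℂ → ℂ), ‖y‖ ≤ R0 → 0 < σ → DifferentiableOn ℂ G (ball y δ') →
    (∀ u ∈ ball y δ', G u ∈ oU f U k ∧ f^[k] (G u) = u ∧ ‖G u - z‖ ≤ M * σ) → σ ≤ M * ‖deriv G y‖ → ε ≤ σ := by
  by_contra hcon
  push Not at hcon
  choose z hz k y σ G hy hσ hG hGu hσM hlt using fun m : ℕ =>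
    hcon (1 / ((m : ℝ) + 1)) (by positivity)
  have hM : 0 < M := by
    by_contra hM
    push Not at hM
    have h1 := hσM 0
    have h2 := hσ 0
    have h3 : M * ‖deriv (G 0) (y 0)‖ ≤ 0 := mul_nonpos_of_nonpos_of_nonneg hM (norm_nonneg _)
    linarith
  obtain ⟨𝒰, h𝒰⟩ : ∃ 𝒰 : Ultrafilter ℕ, (𝒰 : Filter ℕ) ≤ atTop :=
    ⟨hyperfilter ℕ, Nat.hyperfilter_le_atTop⟩
  obtain ⟨yi, hyi, -⟩ := Pool.Agent.H43.UB.ul_ex 𝒰 (z := y) (M := R0) (Eventually.of_forall hy)
  choose β hβ hβ' using fun i => Pool.Agent.H43.UB.ul_ex 𝒰 (z := fun m => μ i (z m)) (M := 1)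
    (Eventually.of_forall fun m => hX.up i (z m) (hz m))
  have hσ0 : Tendsto σ (𝒰 : Filter ℕ) (𝓝 0) := by
    have h1 : Tendsto (fun m : ℕ => 1 / ((m : ℝ) + 1)) (𝒰 : Filter ℕ) (𝓝 0) :=
      tendsto_one_div_add_atTop_nhds_zero_nat.mono_left h𝒰
    exact tendsto_of_tendsto_of_tendsto_of_le_of_le tendsto_const_nhds h1 (fun m => (hσ m).le)
      fun m => (hlt m).le
  -- the rescaled branches
  have hsub : ∀ᶠ m in (𝒰 : Filter ℕ), ball yi (δ' / 2) ⊆ ball (y m) δ' := by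
    filter_upwards [Metric.tendsto_nhds.1 hyi (δ' / 2) (by positivity)] with m hm u hu
    rw [mem_ball] at hu ⊢
    calc dist u (y m) ≤ dist u yi + dist yi (y m) := dist_triangle _ _ _
      _ < δ' / 2 + δ' / 2 := by
        rw [dist_comm yi]
        exact add_lt_add hu hm
      _ = δ' := by ring
  have hgd : ∀ᶠ m in (𝒰 : Filter ℕ), DifferentiableOn ℂ (fun u => (G m u - z m) / (σ m : ℂ))
      (ball yi (δ' / 2)) := by
    filter_upwards [hsub] with m hm
    exact (((hG m).mono hm).sub_const _).div_const _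
  have hgb : ∀ᶠ m in (𝒰 : Filter ℕ), ∀ u ∈ ball yi (δ' / 2), ‖(G m u - z m) / (σ m : ℂ)‖ ≤ M := by
    filter_upwards [hsub] with m hm u hu
    rw [norm_div, Complex.norm_real, Real.norm_of_nonneg (hσ m).le, div_le_iff₀ (hσ m)]
    exact (hGu m u (hm hu)).2.2
  obtain ⟨γ, hγ, hlim⟩ := Pool.Agent.H43.UB.um 𝒰 (isOpen_ball (x := yi) (ε := δ' / 2))
    (g := fun m u => (G m u - z m) / (σ m : ℂ)) hgd fun u hu => by
      obtain ⟨s, hs, hs2⟩ := Metric.isOpen_iff.1 (isOpen_ball (x := yi) (ε := δ' / 2)) u hu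
      refine ⟨s, M, hs, hs2, ?_⟩
      filter_upwards [hgb] with m hm v hv
      exact hm v (hs2 hv)
  have hdlim := hlim.deriv hgd isOpen_ball
  have hyS : yi ∈ ball yi (δ' / 2) := mem_ball_self (by positivity)
  have hγ'c : ContinuousAt (deriv γ) yi :=
    ((hγ.deriv isOpen_ball).continuousOn).continuousAt (isOpen_ball.mem_nhds hyS)
  have hder : ∀ m, ∀ u ∈ ball (y m) δ', deriv (fun u => (G m u - z m) / (σ m : ℂ)) u =
      deriv (G m) u / (σ m : ℂ) := by
    intro m u hu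
    have h1 : HasDerivAt (G m) (deriv (G m) u) u :=
      ((hG m u hu).differentiableAt (isOpen_ball.mem_nhds hu)).hasDerivAt
    exact ((h1.sub_const (z m)).div_const (σ m : ℂ)).deriv
  have hlb : 1 / M ≤ ‖deriv γ yi‖ := by
    have h1 : Tendsto (fun m => (deriv ∘ fun m u => (G m u - z m) / (σ m : ℂ)) m (y m))
        (𝒰 : Filter ℕ) (𝓝 (deriv γ yi)) := by
      refine hdlim.tendsto_comp hγ'c.continuousWithinAt hyS ?_
      rw [tendsto_nhdsWithin_iff]
      refine ⟨hyi, ?_⟩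
      exact hyi.eventually (isOpen_ball.mem_nhds hyS)
    refine ge_of_tendsto h1.norm (Eventually.of_forall fun m => ?_)
    show 1 / M ≤ ‖deriv (fun u => (G m u - z m) / (σ m : ℂ)) (y m)‖
    rw [hder m (y m) (mem_ball_self hδ'), norm_div, Complex.norm_real,
      Real.norm_of_nonneg (hσ m).le, div_le_div_iff₀ hM (hσ m)]
    have h2 := hσM m
    linarith
  -- a ball where the derivatives are bounded below
  obtain ⟨s, hs, hsS, hsb⟩ : ∃ s : ℝ, 0 < s ∧ ball yi s ⊆ ball yi (δ' / 2) ∧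
      ∀ᶠ m in (𝒰 : Filter ℕ), ∀ u ∈ ball yi s, 1 / (2 * M) * σ m ≤ ‖deriv (G m) u‖ := by
    have hε : 0 < 1 / (4 * M) := by positivity
    obtain ⟨t, ht, ht2⟩ := Metric.tendstoLocallyUniformlyOn_iff.1 hdlim (1 / (4 * M)) hε yi hyS
    rw [isOpen_ball.nhdsWithin_eq hyS] at ht
    have h1 : ∀ᶠ u in 𝓝 yi, dist (deriv γ u) (deriv γ yi) < 1 / (4 * M) :=
      Metric.tendsto_nhds.1 hγ'c _ hε
    obtain ⟨s, hs, hs2⟩ := Metric.eventually_nhds_iff_ball.1
      ((h1.and ht).and (isOpen_ball.mem_nhds hyS))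
    refine ⟨s, hs, fun u hu => (hs2 u hu).2, ?_⟩
    filter_upwards [ht2, hsub] with m hm hm2 u hu
    obtain ⟨⟨h3, h4⟩, h5⟩ := hs2 u hu
    have h6 : dist (deriv γ u) (deriv (fun u => (G m u - z m) / (σ m : ℂ)) u) < 1 / (4 * M) :=
      hm u h4
    rw [hder m u (hm2 h5)] at h6
    rw [dist_eq_norm] at h3 h6
    have h7 : ‖deriv γ yi‖ ≤ ‖deriv γ u - deriv γ yi‖ +
        ‖deriv γ u - deriv (G m) u / (σ m : ℂ)‖ + ‖deriv (G m) u / (σ m : ℂ)‖ := by
      have e : deriv γ yi = (deriv γ u - deriv (G m) u / (σ m : ℂ)) + deriv (G m) u / (σ m : ℂ) -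
          (deriv γ u - deriv γ yi) := by ring
      calc ‖deriv γ yi‖ = ‖(deriv γ u - deriv (G m) u / (σ m : ℂ)) + deriv (G m) u / (σ m : ℂ) -
          (deriv γ u - deriv γ yi)‖ := by rw [← e]
        _ ≤ ‖(deriv γ u - deriv (G m) u / (σ m : ℂ)) + deriv (G m) u / (σ m : ℂ)‖ +
          ‖deriv γ u - deriv γ yi‖ := norm_sub_le _ _
        _ ≤ ‖deriv γ u - deriv (G m) u / (σ m : ℂ)‖ + ‖deriv (G m) u / (σ m : ℂ)‖ +
          ‖deriv γ u - deriv γ yi‖ := by
            have := norm_add_le (deriv γ u - deriv (G m) u / (σ m : ℂ)) (deriv (G m) u / (σ m : ℂ))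
            linarith
        _ = _ := by ring
    have h8 : 1 / (2 * M) ≤ ‖deriv (G m) u / (σ m : ℂ)‖ := by
      have h9 : 1 / M = 1 / (4 * M) + 1 / (4 * M) + 1 / (2 * M) := by
        field_simp
        norm_num
      linarith
    rw [norm_div, Complex.norm_real, Real.norm_of_nonneg (hσ m).le, le_div_iff₀ (hσ m)] at h8
    exact h8
  -- the combination
  obtain ⟨c, hc1, hc2⟩ := hX.dim β
  have hc0 : 0 < 1 / (2 * M) := by positivity
  have hcm : Tendsto (fun m => ‖∑ i, c i * μ i (z m)‖) (𝒰 : Filter ℕ) (𝓝 0) := by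
    have h1 : Tendsto (fun m => ∑ i, c i * μ i (z m)) (𝒰 : Filter ℕ) (𝓝 (∑ i, c i * β i)) :=
      tendsto_finsetSum _ fun i _ => (hβ i).const_mul (c i)
    rw [hc1] at h1
    have h2 := h1.norm
    rwa [norm_zero] at h2
  have happ : ∀ ε : ℝ, 0 < ε → ∃ Φ : ℂ → ℂ, DifferentiableOn ℂ Φ (ball yi s) ∧
      ∀ u ∈ ball yi s, ‖∑ i, c i * X i u - Φ u‖ ≤ ε := by
    intro ε hε
    have hC : 0 ≤ ∑ i, ‖c i‖ := Finset.sum_nonneg fun i _ => norm_nonneg _
    obtain ⟨ε1, hε1⟩ : ∃ ε1 : ℝ, ε1 = ε / (8 * M ^ 2 * (∑ i, ‖c i‖ + 1)) := ⟨_, rfl⟩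
    have hε1p : 0 < ε1 := by
      rw [hε1]
      positivity
    obtain ⟨ρ1, hρ1, h1⟩ := nc_app h.Uo h.fd hX c (M := M) (c0 := 1 / (2 * M)) (ε1 := ε1) hM hc0 hε1p
    have e1 : ∀ᶠ m in (𝒰 : Filter ℕ), 2 * M * σ m < ρ1 := by
      have h2 : Tendsto (fun m => 2 * M * σ m) (𝒰 : Filter ℕ) (𝓝 (2 * M * 0)) := hσ0.const_mul _
      rw [mul_zero] at h2
      exact h2.eventually (gt_mem_nhds hρ1)
    have e2 : ∀ᶠ m in (𝒰 : Filter ℕ), ‖∑ i, c i * μ i (z m)‖ < ε / (4 * M ^ 2) :=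
      hcm.eventually (gt_mem_nhds (by positivity))
    obtain ⟨m, hm1, hm2, hm3, hm4⟩ := (e1.and (e2.and (hsb.and hsub))).exists
    have hBm : ball yi s ⊆ ball (y m) δ' := hsS.trans hm4
    obtain ⟨Φ, hΦ1, hΦ2⟩ := h1 (z m) (hz m) (k m) (σ m) (G m) (ball yi s) isOpen_ball (hσ m) hm1
      ((hG m).mono hBm) fun u hu => ⟨(hGu m u (hBm hu)).1, (hGu m u (hBm hu)).2.1,
        (hGu m u (hBm hu)).2.2, hm3 u hu⟩
    refine ⟨Φ, hΦ1, fun u hu => (hΦ2 u hu).trans ?_⟩
    have e3 : ‖∑ i, c i * μ i (z m)‖ * M / (1 / (2 * M)) ≤ ε / 2 := by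
      have h3 : ‖∑ i, c i * μ i (z m)‖ * M / (1 / (2 * M)) = ‖∑ i, c i * μ i (z m)‖ * (2 * M ^ 2) := by
        field_simp
      rw [h3]
      have h4 : ε / (4 * M ^ 2) * (2 * M ^ 2) = ε / 2 := by
        field_simp
        norm_num
      rw [← h4]
      exact mul_le_mul_of_nonneg_right hm2.le (by positivity)
    have e4 : (∑ i, ‖c i‖) * ε1 * (2 * M) / (1 / (2 * M)) ≤ ε / 2 := by
      have h3 : (∑ i, ‖c i‖) * ε1 * (2 * M) / (1 / (2 * M)) =
          (∑ i, ‖c i‖) / (∑ i, ‖c i‖ + 1) * (ε / 2) := by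
        rw [hε1]
        field_simp
        norm_num
      rw [h3]
      have h4 : (∑ i, ‖c i‖) / (∑ i, ‖c i‖ + 1) ≤ 1 := by
        rw [div_le_one (by positivity)]
        linarith
      have h5 : 0 ≤ ε / 2 := by positivity
      nlinarith
    linarith
  choose Φ hΦ1 hΦ2 using fun j : ℕ => happ (1 / ((j : ℝ) + 1)) (by positivity)
  have hdiff : DifferentiableOn ℂ (fun u => ∑ i, c i * X i u) (ball yi s) := by
    have h1 : TendstoUniformlyOn Φ (fun u => ∑ i, c i * X i u) atTop (ball yi s) := by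
      rw [Metric.tendstoUniformlyOn_iff]
      intro ε hε
      have h2 : ∀ᶠ j : ℕ in atTop, 1 / ((j : ℝ) + 1) < ε :=
        tendsto_one_div_add_atTop_nhds_zero_nat.eventually (gt_mem_nhds hε)
      filter_upwards [h2] with j hj u hu
      rw [dist_eq_norm]
      exact (hΦ2 j u hu).trans_lt hj
    exact h1.tendstoLocallyUniformlyOn.differentiableOn (Eventually.of_forall hΦ1) isOpen_ball
  refine hc2 (hol_ext h (X := fun u => ∑ i, c i * X i u) (hh := fun u => ∑ i, c i * hh i u) ?_ ?_ ?_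
    hs hdiff)
  · exact continuous_finsetSum _ fun i _ => continuous_const.mul (hX.Xc i)
  · exact DifferentiableOn.fun_sum fun i _ => (differentiableOn_const _).mul (hX.hd i)
  · intro x hx
    show ∑ i, c i * X i (f x) = deriv f x * ∑ i, c i * X i x + ∑ i, c i * hh i x
    rw [Finset.mul_sum, ← Finset.sum_add_distrib]
    refine Finset.sum_congr rfl fun i _ => ?_
    rw [hX.eq i x hx]
    ring

end Pool.Agent.H66.UX
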