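import Pool.Agent.H66.UX.NCR
import Pool.Agent.H18.UP.BAS

/-!
# [H66 UX RZA] UD on the sphere, realization: critical points of the iterates

`pw_crit`. PROOF. If `f` is injective on a neighbourhood `U j` of `f^[j] x` for every `j < N` then `f^[N]` is injective on the neighbourhood `⋂ j < N, f^[j] ⁻¹' U j` of `x` (induction on `N`, continuity).

`sim_it`. PROOF. `b (g^[i] x0) ≠ 0` for `i < N` and `(Rf v)^[i] x0 = g^[i] x0` for `i ≤ N` (`fin_orbs`, H64/NC/SFC). The set `(pre a b)^[N] univ` is open (`pre_open`), contains `x0` (`mem_pre`), and `deriv g^[N] x = tD a b N x = ∏ i ∈ range N, dg (g^[i] x)` on it (`g_diff`, H18/UP/BAS). Split the factor `i = j`: `tD a b N x = dg (g^[j] x) * R x`, `R x = ∏ i ∈ (range N).erase j, dg (g^[i] x)`, differentiable at `x0`.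
`dg (g^[j] x0) = 0` (`hc`). `R x0 ≠ 0`: otherwise `dg (g^[i] x0) = 0` for some `i < N`, `i ≠ j`, so `Cr (g^[i] x0)` (`dg = ww / b ^ 2`), and the later of the two critical points is an iterate of the other: contradiction to `ncr` (`(Rf v)^[j - i] (g^[i] x0) = g^[j] x0` by `Function.iterate_add_apply`).
The derivative of `dg (g^[j] x)` at `x0` is `deriv dg (g^[j] x0) * tD a b j x0`: `deriv dg c = ww'(c) / b c ^ 2 ≠ 0` at the critical point `c = g^[j] x0` (`sim_s`, velocities from `vel_s`), `tD a b j x0 ≠ 0` (its factors are factors of `R x0`). So the derivative of `deriv g^[N]` at `x0` is `deriv dg c * tD a b j x0 * R x0 ≠ 0`. The last clause: `(Rf v)^[N] x = g^[N] x` for `x ∈ (pre a b)^[N] univ` (`rat_coe_of_ne`, induction).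

`der_q`. PROOF. `g_diff` (`mem_pre`, `fin_orbs`: the orbit of `q` does not meet infinity as `(Rf v)^[N] q = q` and `∞` is fixed) and `rep_s` (H64/NC/SFC); `g^[N] q = q` from `fin_orbs` (`OnePoint.coe_injective`); analytic: differentiable on the open set `(pre a b)^[N] univ`.
-/

set_option autoImplicit false

open Filter Topology Polynomial Metric Set MeasureTheory

namespace Pool.Agent.H66.UX

open Pool.Agent.H44.Fatou (rat rat_continuous rat_coe rat_coe_of_ne pt crit_coe)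
open Pool.Agent.H32.BT Pool.Agent.H79.Eul Pool.Agent.H79.Par
open Pool.Agent.H35.EX Pool.Agent.H44.RR Pool.Agent.H56.HR Pool.Agent.H44.RC Pool.Agent.H47.RJ
open Pool.Agent.H47.NM Pool.Agent.H47.NN Pool.Agent.H44.ND Pool.Agent.H79.ES Pool.Agent.H44.RG
open Pool.Agent.H44.CP Pool.Agent.H47.PS Pool.Agent.H64.NC
open Pool.Agent.H61.TT (gg dg ww RatD)
open Pool.Agent.H18.UP (Cr)
open Pool.Agent.H66.UP (VelP vel_s velp_crit sim_s)

private theorem rza_an {a b : Polynomial ℂ} {N : ℕ} {z : ℂ}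
    (hz : z ∈ (Pool.Agent.H61.TT.pre a b)^[N] univ) : AnalyticAt ℂ (gg a b)^[N] z := by
  have h1 : DifferentiableOn ℂ (gg a b)^[N] ((Pool.Agent.H61.TT.pre a b)^[N] univ) := fun w hw =>
    (Pool.Agent.H18.UP.g_diff hw).differentiableAt.differentiableWithinAt
  exact h1.analyticAt ((Pool.Agent.H18.UP.pre_open isOpen_univ).mem_nhds hz)

private theorem rza_ev {a b : Polynomial ℂ} {N : ℕ} {z : ℂ}
    (hz : z ∈ (Pool.Agent.H61.TT.pre a b)^[N] univ) :
    ∀ᶠ x : ℂ in 𝓝 z, (rat a b)^[N] (x : OnePoint ℂ) = (((gg a b)^[N] x : ℂ) : OnePoint ℂ) := by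
  filter_upwards [(Pool.Agent.H18.UP.pre_open isOpen_univ).mem_nhds hz] with x hx
  exact Pool.Agent.H57.CP.rat_it (Pool.Agent.H3.NC.mem_pre.1 hx).1 N le_rfl

/-- a product with a continuous function at a zero -/
private theorem rza_mul {f V : ℂ → ℂ} {c f' : ℂ} (hf : HasDerivAt f f' c) (h0 : f c = 0)
    (hV : ContinuousAt V c) : HasDerivAt (fun z => f z * V z) (f' * V c) c := by
  rw [hasDerivAt_iff_tendsto_slope] at hf ⊢
  have h1 := hf.mul (hV.tendsto.mono_left nhdsWithin_le_nhds)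
  refine h1.congr fun z => ?_
  simp only [slope_def_field, h0]
  ring

private theorem rza_dg {a b : Polynomial ℂ} {c : ℂ} (hc : Cr a b c) :
    HasDerivAt (fun z => dg a b z) ((derivative (ww a b)).eval c / b.eval c ^ 2) c := by
  obtain ⟨hb, hw⟩ := hc
  have hb2 : b.eval c ^ 2 ≠ 0 := pow_ne_zero _ hb
  have h2 := ((ww a b).hasDerivAt c).div ((b.hasDerivAt c).pow 2) hb2
  refine h2.congr_deriv ?_
  rw [hw]
  simp only [Pi.pow_apply]
  field_simp
  ring

private theorem rza_dc {a b : Polynomial ℂ} {c : ℂ} (hb : b.eval c ≠ 0) :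
    ContinuousAt (fun z => dg a b z) c := by
  unfold Pool.Agent.H61.TT.dg
  exact (ww a b).continuous.continuousAt.div (b.continuous.continuousAt.pow 2) (pow_ne_zero _ hb)

/-- the second derivative of an iterate -/
private theorem rza_sec {a b : Polynomial ℂ} {x0 : ℂ} {N j : ℕ}
    (hb : ∀ i < N, b.eval ((gg a b)^[i] x0) ≠ 0) (hj : j < N)
    (hc : Cr a b ((gg a b)^[j] x0)) (hs : (derivative (ww a b)).eval ((gg a b)^[j] x0) ≠ 0)
    (hn : ∀ i < N, i ≠ j → dg a b ((gg a b)^[i] x0) ≠ 0) :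
    deriv (gg a b)^[N] x0 = 0 ∧ deriv (deriv (gg a b)^[N]) x0 ≠ 0 := by
  have hz : x0 ∈ (Pool.Agent.H61.TT.pre a b)^[N] univ := Pool.Agent.H3.NC.mem_pre.2 ⟨hb, mem_univ _⟩
  have hO := (Pool.Agent.H18.UP.pre_open (a := a) (b := b) (n := N) isOpen_univ).mem_nhds hz
  have hm : j ∈ Finset.range N := Finset.mem_range.2 hj
  have hd0 : dg a b ((gg a b)^[j] x0) = 0 := by
    unfold Pool.Agent.H61.TT.dg
    rw [hc.2, zero_div]
  have hcont : ∀ i ≤ N, ContinuousAt (gg a b)^[i] x0 := fun i hi =>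
    (Pool.Agent.H57.CP.bra_it (a := a) (b := b) (n := i) fun k hk => hb k (by omega)).hasDerivAt.continuousAt
  refine ⟨?_, ?_⟩
  · rw [(Pool.Agent.H18.UP.g_diff hz).deriv]
    unfold Pool.Agent.H57.CP.tD
    exact Finset.prod_eq_zero hm hd0
  · have h1 : deriv (gg a b)^[N] =ᶠ[𝓝 x0] fun x => dg a b ((gg a b)^[j] x) *
        ∏ i ∈ (Finset.range N).erase j, dg a b ((gg a b)^[i] x) := by
      filter_upwards [hO] with x hx
      rw [(Pool.Agent.H18.UP.g_diff hx).deriv]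
      unfold Pool.Agent.H57.CP.tD
      exact (Finset.mul_prod_erase _ (fun i => dg a b ((gg a b)^[i] x)) hm).symm
    have h2 : HasDerivAt (gg a b)^[j] (Pool.Agent.H57.CP.tD a b j x0) x0 :=
      (Pool.Agent.H57.CP.bra_it fun k hk => hb k (by omega)).hasDerivAt
    have h3 : HasDerivAt (fun x => dg a b ((gg a b)^[j] x))
        ((derivative (ww a b)).eval ((gg a b)^[j] x0) / b.eval ((gg a b)^[j] x0) ^ 2 *
          Pool.Agent.H57.CP.tD a b j x0) x0 := (rza_dg hc).comp x0 h2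
    have h4 : ContinuousAt (fun x => ∏ i ∈ (Finset.range N).erase j, dg a b ((gg a b)^[i] x)) x0 := by
      refine tendsto_finsetProd _ fun i hi => ?_
      have hi' := Finset.mem_range.1 (Finset.mem_of_mem_erase hi)
      exact (rza_dc (hb i hi')).comp (f := (gg a b)^[i]) (hcont i hi'.le)
    have h5 := rza_mul h3 hd0 h4
    rw [h1.deriv_eq, h5.deriv]
    refine mul_ne_zero (mul_ne_zero (div_ne_zero hs (pow_ne_zero _ hc.1)) ?_) ?_
    · unfold Pool.Agent.H57.CP.tD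
      refine Finset.prod_ne_zero_iff.2 fun i hi => ?_
      have hi' := Finset.mem_range.1 hi
      exact hn i (by omega) (by omega)
    · refine Finset.prod_ne_zero_iff.2 fun i hi => ?_
      exact hn i (Finset.mem_range.1 (Finset.mem_of_mem_erase hi)) (Finset.ne_of_mem_erase hi)

theorem pw_crit {f : OnePoint ℂ → OnePoint ℂ} (hf : Continuous f) {N : ℕ} {x : OnePoint ℂ} (h : IsCrit f^[N] x) :
    ∃ j < N, IsCrit f (f^[j] x) := by
  by_contra hc
  have hc' : ∀ j < N, ¬ IsCrit f (f^[j] x) := fun j hj h' => hc ⟨j, hj, h'⟩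
  clear hc
  apply h
  clear h
  induction N with
  | zero => exact ⟨univ, univ_mem, fun a _ b _ hab => hab⟩
  | succ N ih =>
    obtain ⟨U, hU, hUi⟩ := ih (fun j hj => hc' j (by omega))
    have h1 := hc' N (Nat.lt_succ_self N)
    unfold IsCrit at h1
    rw [not_not] at h1
    obtain ⟨V, hV, hVi⟩ := h1
    refine ⟨U ∩ f^[N] ⁻¹' V, inter_mem hU ((hf.iterate N).continuousAt hV), ?_⟩
    intro a ha b hb hab
    rw [Function.iterate_succ_apply', Function.iterate_succ_apply'] at hab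
    exact hUi ha.1 hb.1 (hVi ha.2 hb.2 hab)

variable {d : ℕ} {v : E d}

theorem sim_it (hd : 2 ≤ d) (hcop : IsCoprime (pol v.1) (pol v.2))
    (hdeg : max (pol v.1).natDegree (pol v.2).natDegree = d) (hup : ¬ Up v) (hJ : JS (Rf v) = univ)
    (h0 : Rf v ((0 : ℂ) : OnePoint ℂ) = ((0 : ℂ) : OnePoint ℂ))
    (h1 : Rf v ((1 : ℂ) : OnePoint ℂ) = ((1 : ℂ) : OnePoint ℂ)) (hi : Rf v OnePoint.infty = OnePoint.infty)
    {x0 : ℂ} {N j : ℕ} (hx : (Rf v)^[N] (x0 : OnePoint ℂ) ≠ OnePoint.infty) (hj : j < N)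
    (hc : Cr (pol v.1) (pol v.2) ((gg (pol v.1) (pol v.2))^[j] x0)) :
    AnalyticAt ℂ (gg (pol v.1) (pol v.2))^[N] x0 ∧ deriv (gg (pol v.1) (pol v.2))^[N] x0 = 0 ∧
      deriv (deriv (gg (pol v.1) (pol v.2))^[N]) x0 ≠ 0 ∧
      ∀ᶠ x : ℂ in 𝓝 x0, (Rf v)^[N] (x : OnePoint ℂ) = (((gg (pol v.1) (pol v.2))^[N] x : ℂ) : OnePoint ℂ) := by
  obtain ⟨hb, hor⟩ := fin_orbs hi hx
  have hz : x0 ∈ (Pool.Agent.H61.TT.pre (pol v.1) (pol v.2))^[N] univ :=
    Pool.Agent.H3.NC.mem_pre.2 ⟨hb, mem_univ _⟩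
  have hV : ∀ j : ℕ, ∃ V : ℂ → ℂ, j ≤ 2 * d → VelP (pol v.1) (pol v.2) (X ^ j) V := by
    intro j
    by_cases hjd : j ≤ 2 * d
    · obtain ⟨V, hV⟩ := vel_s hd hcop hdeg hup hJ h0 h1 hi (η := X ^ j)
        ((natDegree_X_pow_le j).trans hjd)
      exact ⟨V, fun _ => hV⟩
    · exact ⟨fun _ => 0, fun h => absurd h hjd⟩
  choose V hV using hV
  have hs := sim_s (N := 2 * d) (by omega) hV hc
  have hn : ∀ i < N, i ≠ j → dg (pol v.1) (pol v.2) ((gg (pol v.1) (pol v.2))^[i] x0) ≠ 0 := by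
    intro i hiN hij h2
    have hbi := hb i hiN
    have h3 : (ww (pol v.1) (pol v.2)).eval ((gg (pol v.1) (pol v.2))^[i] x0) = 0 := by
      unfold Pool.Agent.H61.TT.dg at h2
      rcases div_eq_zero_iff.1 h2 with h4 | h4
      · exact h4
      · exact absurd h4 (pow_ne_zero _ hbi)
    have hci : Cr (pol v.1) (pol v.2) ((gg (pol v.1) (pol v.2))^[i] x0) := ⟨hbi, h3⟩
    have key : ∀ i1 i2 : ℕ, i1 < i2 → i2 < N →
        (Rf v)^[i2 - i1] (((gg (pol v.1) (pol v.2))^[i1] x0 : ℂ) : OnePoint ℂ) =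
          (((gg (pol v.1) (pol v.2))^[i2] x0 : ℂ) : OnePoint ℂ) := by
      intro i1 i2 h12 h2N
      have e1 := hor i1 (by omega)
      have e2 := hor i2 (by omega)
      rw [← e1, ← e2]
      show (rat (pol v.1) (pol v.2))^[i2 - i1] ((rat (pol v.1) (pol v.2))^[i1] (x0 : OnePoint ℂ)) = _
      rw [← Function.iterate_add_apply, Nat.sub_add_cancel h12.le]
    rcases lt_or_gt_of_ne hij with h5 | h5
    · exact ncr hd hcop hdeg hup hJ h0 h1 hi hci hc (n := j - i) (by omega) (key i j h5 hj)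
    · exact ncr hd hcop hdeg hup hJ h0 h1 hi hc hci (n := i - j) (by omega) (key j i h5 hiN)
  obtain ⟨r1, r2⟩ := rza_sec hb hj hc hs hn
  exact ⟨rza_an hz, r1, r2, rza_ev hz⟩

theorem der_q (hd : 2 ≤ d) (hcop : IsCoprime (pol v.1) (pol v.2))
    (hdeg : max (pol v.1).natDegree (pol v.2).natDegree = d) (hup : ¬ Up v) (hJ : JS (Rf v) = univ)
    (hi : Rf v OnePoint.infty = OnePoint.infty) {q : ℂ} {N : ℕ} (hN : 1 ≤ N)
    (hq : (Rf v)^[N] (q : OnePoint ℂ) = (q : OnePoint ℂ)) :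
    AnalyticAt ℂ (gg (pol v.1) (pol v.2))^[N] q ∧ (gg (pol v.1) (pol v.2))^[N] q = q ∧
      1 < ‖deriv (gg (pol v.1) (pol v.2))^[N] q‖ ∧
      ∀ᶠ x : ℂ in 𝓝 q, (Rf v)^[N] (x : OnePoint ℂ) = (((gg (pol v.1) (pol v.2))^[N] x : ℂ) : OnePoint ℂ) := by
  have hx : (Rf v)^[N] (q : OnePoint ℂ) ≠ OnePoint.infty := by
    rw [hq]
    exact OnePoint.coe_ne_infty _
  obtain ⟨hb, hor⟩ := fin_orbs hi hx
  have hz : q ∈ (Pool.Agent.H61.TT.pre (pol v.1) (pol v.2))^[N] univ :=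
    Pool.Agent.H3.NC.mem_pre.2 ⟨hb, mem_univ _⟩
  have h1 := rep_s hd hcop hdeg hup hJ hi (by omega : 0 < N) hq
  refine ⟨rza_an hz, ?_, ?_, rza_ev hz⟩
  · have h2 := hor N le_rfl
    have h3 : (Rf v)^[N] (q : OnePoint ℂ) = (((gg (pol v.1) (pol v.2))^[N] q : ℂ) : OnePoint ℂ) := h2
    rw [hq] at h3
    exact (OnePoint.coe_injective h3).symm
  · rw [(Pool.Agent.H18.UP.g_diff hz).deriv]
    exact h1

end Pool.Agent.H66.UX
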