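import Pool.Agent.H66.UX.RZA
import Pool.Agent.H66.IL.SDF
import Pool.Agent.H64.JS.CNK
import Pool.Agent.H79.PJ.RIter

/-!
# [H66 UX RZB] UD on the sphere, realization: the iterate in the chart `em q`

`RQ v q N φ A B D`: `rat A B` is the iterate `(Rf v)^[N]` in the chart `φ` (`φ⁻¹ = em q`, `φ q = ∞`). `PCs v`: the postcritical set.

`rq_ex`. PROOF. `ch_mob hd q` (H47/PS/CHD): `φ`, `L = Lin q`; `φ (em q w) = w`: for `w = 0` `φ ∞ = 0`; for `w ≠ 0` `em q w = q + 1 / w ≠ q`, `φ (q + 1 / w) = (1 / w)⁻¹ = w`. `exists_iter` (H79/PJ/RIter) for `L v` and `N`: `V : E (d ^ N)`, `A = pol V.1`, `B = pol V.2`, `d ^ N ≥ 2` (`N ≥ 1`); `(Rf (L v))^[N] (φ x) = φ ((Rf v)^[N] x)` (`iter_conj`, as in `not_pre`, H47/PS/PRE).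

`rq_gg`. PROOF. `φ ((Rf v)^[N] (em q w)) = rat A B (φ (em q w)) = rat A B w = gg A B w = φ (em q (gg A B w))` (`cj`, `fe`, `rat_coe_of_ne`), `φ` is injective. `rq_pole`: `rat A B w = ∞ = φ q` (`rat_coe`, `pt`). `rq_inf`: `cj` for `x = q`.

`pc_it`. PROOF. `Rf v` is continuous (`rat_continuous`), the orbits of the critical values are mapped into themselves, closure; induction. (Critical points are in `JS (Rf v) = univ`.) `pc_crit`. PROOF. `c ∈ univ = JS (Rf v)`, `subset_closure`.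

`rq_P`. PROOF. `P = {w | em q w ∈ PCs v}` `= {w : ℂ | (w : OnePoint ℂ) ∈ φ '' PCs v}` (`fe`). `φ '' PCs v` is compact, does not contain `∞ = φ q`, so it is contained in the range of the embedding of the plane, and `P` is compact (`OnePoint.isOpenEmbedding_coe`, `Topology.IsInducing.isCompact_preimage`). Not empty: `exists_crit` (H32/BT/Crit), `pc_crit`: `Rf v c ∈ PCs v`, `φ (Rf v c) ≠ ∞` is the image of a point `w` of the plane.
`B w ≠ 0` for `w ∈ P`: otherwise `(Rf v)^[N] (em q w) = q` (`rq_pole`) is in `PCs v` (`pc_it`). `gg A B w ∈ P`: `rq_gg`, `pc_it`.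

`rq_ci`. PROOF. Let `c = φ x` (`φ` surjective) be critical for `rat A B`. `x` is critical for `(Rf v)^[N]` (`φ` is a homeomorphism, `cj`: `isCrit_conj` as in `not_pre`), so `(Rf v)^[j] x` is critical for `Rf v` for some `j < N` (`pw_crit`) and `(Rf v)^[N] x = (Rf v)^[N - j] ((Rf v)^[j] x) ∈ PCs v` (`pc_crit`). `x ≠ q` (otherwise `q = (Rf v)^[N] q ∈ PCs v`), so `c = φ x ≠ φ q = ∞`, `c = z`, `x = em q z`. `B z ≠ 0` (otherwise `(Rf v)^[N] x = q`, `rq_pole`), `gg A B z ∈ P` by `rq_gg`.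
-/

set_option autoImplicit false

open Filter Topology Polynomial Metric Set MeasureTheory

namespace Pool.Agent.H66.UX

open Pool.Agent.H44.Fatou (rat rat_continuous rat_coe rat_coe_of_ne pt crit_coe)
open Pool.Agent.H32.BT Pool.Agent.H79.Eul Pool.Agent.H79.Par
open Pool.Agent.H35.EX Pool.Agent.H44.RR Pool.Agent.H56.HR Pool.Agent.H44.RC Pool.Agent.H47.RJ
open Pool.Agent.H47.NM Pool.Agent.H47.NN Pool.Agent.H44.ND Pool.Agent.H79.ES Pool.Agent.H44.RG
open Pool.Agent.H44.CP Pool.Agent.H47.PS Pool.Agent.H64.NC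
open Pool.Agent.H61.TT (gg dg ww RatD)
open Pool.Agent.H64.JS (KJ)
open Pool.Agent.H66.IL (em)

variable {d D : ℕ} {v : E d} {q : ℂ} {N : ℕ} {φ : OnePoint ℂ ≃ₜ OnePoint ℂ} {A B : Polynomial ℂ}

/-- `rat A B` is the iterate in the chart `em q` -/
structure RQ {d : ℕ} (v : E d) (q : ℂ) (N : ℕ) (φ : OnePoint ℂ ≃ₜ OnePoint ℂ) (A B : Polynomial ℂ) (D : ℕ) : Prop where
  rt : RatD D A B
  fe : ∀ w : ℂ, φ (em q w) = (w : OnePoint ℂ)
  fq : φ (q : OnePoint ℂ) = OnePoint.infty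
  cj : ∀ x, rat A B (φ x) = φ ((Rf v)^[N] x)

/-- the postcritical set -/
def PCs {d : ℕ} (v : E d) : Set (OnePoint ℂ) := KJ {c | IsCrit (Rf v) c} (JS (Rf v)) (Rf v)

theorem rq_ex (hd : 2 ≤ d) (hcop : IsCoprime (pol v.1) (pol v.2))
    (hdeg : max (pol v.1).natDegree (pol v.2).natDegree = d) (hN : 1 ≤ N) (q : ℂ) :
    ∃ (φ : OnePoint ℂ ≃ₜ OnePoint ℂ) (A B : Polynomial ℂ), RQ v q N φ A B (d ^ N) := by
  obtain ⟨G, φ, K, hch, h1, h2, h3⟩ := ch_mob hd q
  obtain ⟨c1, c2, c3⟩ := hch.conj v hcop hdeg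
  obtain ⟨V, V1, V2, V3⟩ := Pool.Agent.H79.PJ.exists_iter (by omega) c1 c2 N
  refine ⟨φ, pol V.1, pol V.2, ⟨⟨hd.trans (Nat.le_self_pow (by omega) d), V1, V2⟩, ?_, h2, ?_⟩⟩
  · intro w
    unfold Pool.Agent.H66.IL.em
    split_ifs with hw
    · rw [hw, h3]
    · rw [h1 _ (by
        intro h4
        have h5 : 1 / w = 0 := by linear_combination h4
        exact (one_div_ne_zero hw) h5)]
      congr 1
      rw [add_sub_cancel_left, one_div, inv_inv]
  · intro x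
    show Rf V (φ x) = φ ((Rf v)^[N] x)
    rw [V3, iter_conj φ c3]

theorem rq_gg (h : RQ v q N φ A B D) {w : ℂ} (hw : B.eval w ≠ 0) : (Rf v)^[N] (em q w) = em q (gg A B w) := by
  apply φ.injective
  rw [← h.cj, h.fe, h.fe, rat_coe_of_ne hw]
  rfl

theorem rq_pole (h : RQ v q N φ A B D) {w : ℂ} (hw : B.eval w = 0) : (Rf v)^[N] (em q w) = (q : OnePoint ℂ) := by
  apply φ.injective
  rw [← h.cj, h.fe, h.fq, rat_coe]
  unfold pt
  rw [if_pos hw]

theorem rq_inf (h : RQ v q N φ A B D) (hq : (Rf v)^[N] (q : OnePoint ℂ) = (q : OnePoint ℂ)) :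
    rat A B OnePoint.infty = OnePoint.infty := by
  rw [← h.fq, h.cj, hq]

theorem pc_it (hcop : IsCoprime (pol v.1) (pol v.2)) (n : ℕ) {x : OnePoint ℂ} (hx : x ∈ PCs v) : (Rf v)^[n] x ∈ PCs v := by
  have hc : Continuous (Rf v) := rat_continuous hcop
  have h1 : ∀ x ∈ PCs v, Rf v x ∈ PCs v := by
    intro x hx
    refine map_mem_closure hc hx ?_
    rintro y ⟨c, hc1, hc2, m, hm, rfl⟩
    exact ⟨c, hc1, hc2, m + 1, by omega, Function.iterate_succ_apply' _ _ _⟩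
  induction n with
  | zero => exact hx
  | succ n ih =>
    rw [Function.iterate_succ_apply']
    exact h1 _ ih

theorem pc_crit (hJ : JS (Rf v) = univ) {c : OnePoint ℂ} (hc : IsCrit (Rf v) c) {n : ℕ} (hn : 1 ≤ n) :
    (Rf v)^[n] c ∈ PCs v := by
  refine subset_closure ⟨c, hc, ?_, n, hn, rfl⟩
  rw [hJ]
  exact mem_univ _

theorem rq_P (hd : 2 ≤ d) (hcop : IsCoprime (pol v.1) (pol v.2))
    (hdeg : max (pol v.1).natDegree (pol v.2).natDegree = d) (hJ : JS (Rf v) = univ) (h : RQ v q N φ A B D)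
    (hP : (q : OnePoint ℂ) ∉ PCs v) : IsCompact {w : ℂ | em q w ∈ PCs v} ∧ {w : ℂ | em q w ∈ PCs v}.Nonempty ∧
    ∀ w : ℂ, em q w ∈ PCs v → B.eval w ≠ 0 ∧ em q (gg A B w) ∈ PCs v := by
  have hcomp : IsCompact (φ '' PCs v) := by
    have h1 : IsCompact (PCs v) := isClosed_closure.isCompact
    exact h1.image φ.continuous
  have hsub : φ '' PCs v ⊆ range ((↑) : ℂ → OnePoint ℂ) := by
    rintro _ ⟨x, hx, rfl⟩
    have h1 : φ x ≠ OnePoint.infty := by
      intro h2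
      rw [← h.fq] at h2
      exact hP (φ.injective h2 ▸ hx)
    exact OnePoint.ne_infty_iff_exists.1 h1
  have heq : {w : ℂ | em q w ∈ PCs v} = ((↑) : ℂ → OnePoint ℂ) ⁻¹' (φ '' PCs v) := by
    ext w
    constructor
    · intro hw
      exact ⟨em q w, hw, h.fe w⟩
    · rintro ⟨x, hx, hx2⟩
      have h2 : x = em q w := by
        apply φ.injective
        rw [h.fe]
        exact hx2
      show em q w ∈ PCs v
      rw [← h2]
      exact hx
  refine ⟨?_, ?_, ?_⟩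
  · rw [heq]
    exact OnePoint.isOpenEmbedding_coe.isInducing.isCompact_preimage' hcomp hsub
  · obtain ⟨c, hc⟩ := exists_crit (P := pol v.1) (Q := pol v.2) hcop (by rw [hdeg]; exact hd)
    have h1 : (Rf v)^[1] c ∈ PCs v := pc_crit hJ hc le_rfl
    obtain ⟨w, hw⟩ := hsub ⟨_, h1, rfl⟩
    refine ⟨w, ?_⟩
    rw [heq]
    exact ⟨_, h1, hw.symm⟩
  · intro w hw
    have h1 : B.eval w ≠ 0 := by
      intro h0
      have h2 := pc_it hcop N hw
      rw [rq_pole h h0] at h2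
      exact hP h2
    refine ⟨h1, ?_⟩
    rw [← rq_gg h h1]
    exact pc_it hcop N hw

theorem rq_ci (hcop : IsCoprime (pol v.1) (pol v.2)) (hJ : JS (Rf v) = univ) (h : RQ v q N φ A B D)
    (hq : (Rf v)^[N] (q : OnePoint ℂ) = (q : OnePoint ℂ)) (hP : (q : OnePoint ℂ) ∉ PCs v) {c : OnePoint ℂ}
    (hc : IsCrit (rat A B) c) : ∃ z : ℂ, c = (z : OnePoint ℂ) ∧ B.eval z ≠ 0 ∧ em q (gg A B z) ∈ PCs v ∧
      ∃ j < N, IsCrit (Rf v) ((Rf v)^[j] (em q z)) := by
  obtain ⟨x, rfl⟩ := φ.surjective c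
  have h1 : IsCrit (Rf v)^[N] x := (isCrit_conj φ h.cj x).1 hc
  have hcont : Continuous (Rf v) := rat_continuous hcop
  obtain ⟨j, hj, hcj⟩ := pw_crit hcont h1
  have h2 : (Rf v)^[N] x ∈ PCs v := by
    have h3 := pc_crit hJ hcj (n := N - j) (by omega)
    rw [← Function.iterate_add_apply] at h3
    have h4 : N - j + j = N := by omega
    rwa [h4] at h3
  have hxq : x ≠ (q : OnePoint ℂ) := by
    rintro rfl
    rw [hq] at h2
    exact hP h2
  have h3 : φ x ≠ OnePoint.infty := by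
    intro h4
    rw [← h.fq] at h4
    exact hxq (φ.injective h4)
  obtain ⟨z, hz⟩ := OnePoint.ne_infty_iff_exists.1 h3
  have hx : x = em q z := by
    apply φ.injective
    rw [h.fe]
    exact hz.symm
  have h4 : B.eval z ≠ 0 := by
    intro h0
    rw [hx, rq_pole h h0] at h2
    exact hP h2
  refine ⟨z, hz.symm, h4, ?_, j, hj, ?_⟩
  · rw [← rq_gg h h4, ← hx]
    exact h2
  · rw [← hx]
    exact hcj

end Pool.Agent.H66.UX
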