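import Pool.Agent.H66.UX.RZB
import Pool.Agent.H66.UX.LEO
import Pool.Agent.H66.UX.Defs

/-!
# [H66 UX RZC] UD on the sphere, realization: simple critical points, repelling infinity, exactness in the chart `em q`

`G = (gg (pol v.1) (pol v.2))^[N]`.

`rq_sim`. PROOF. `z` is critical for `rat A B` (`crit_of_wr`, H32/BT/Crit; `ww = Wr`), `rq_ci`: `j < N`, `c = (Rf v)^[j] (em q z)` is critical. `em q z ≠ ∞` (otherwise `c = ∞` as `∞` is fixed, but critical points are in the plane: `crit_pl`, H66/UP/CS), so `z ≠ 0`, `em q z = x0` with `x0 = q + 1 / z`. `(Rf v)^[N] x0 ≠ ∞`: otherwise the critical point `c` is mapped to the fixed point `∞` (`not_pre`, H47/PS/PRE). So `c = g^[j] x0` (`fin_orbs`), `Cr (g^[j] x0)`: its image is in the plane (`j < N`), `crit_coe`.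
`sim_it`: `G` is analytic at `x0`, `G'(x0) = 0`, `G''(x0) ≠ 0`, `(Rf v)^[N] x = G x` near `x0`. For `w` near `z`: `B w ≠ 0`, `w ≠ 0`, `(Rf v)^[N] (em q w) = em q (gg A B w)` (`rq_gg`) `= G (q + 1 / w)`, so `gg A B w ≠ 0` and `q + 1 / gg A B w = G (q + 1 / w)`: `G (q + 1 / w) ≠ q`, `gg A B w = 1 / (G (q + 1 / w) - q)`.
So near `z`: `dg A B w = deriv (gg A B) w = G'(q + 1 / w) * (1 / ((G (q + 1 / w) - q) ^ 2 * w ^ 2))` (`hasDerivAt_gg`, chain rule). Its derivative at `z` is `G''(x0) * (- 1 / z ^ 2) * (1 / ((G x0 - q) ^ 2 * z ^ 2)) ≠ 0` (as `G'(x0) = 0`). On the other hand the derivative of `dg A B = ww / B ^ 2` at `z` is `ww'(z) / B z ^ 2` (`ww z = 0`). So `ww'(z) ≠ 0`.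

`rq_con`. PROOF. `der_q`: `lam = deriv G q`, `1 < ‖lam‖`, `G q = q`, `(Rf v)^[N] x = G x` near `q`. `(G x - q) / (x - q) → lam` for `x → q`, so `G x ≠ q` for `x ≠ q` near `q`. For `w → ∞`: `x = q + 1 / w → q`, `B w ≠ 0` (finitely many roots), as above `gg A B w = 1 / (G (q + 1 / w) - q)`, `dg A B w = G'(q + 1 / w) / ((G (q + 1 / w) - q) * w) ^ 2 → lam / lam ^ 2 = 1 / lam` (the identity `gg A B = ..` holds in the open set `{w | L < ‖w‖}`). `θ = (1 + ‖lam‖⁻¹) / 2`.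
The limit along `cobounded ℂ` (`tendsto_inv₀_cobounded`), eventually in `cobounded` gives `L0` (`Metric.hasBasis_cobounded_compl_closedBall` or `Filter.hasBasis_cobounded_norm`).

`rq_leo`. PROOF. `leo_s` (LEO) for `φ ⁻¹' O`: `N'`. For `n ≥ N'`, `y`: `N * n ≥ n` (`hN`): `x ∈ φ ⁻¹' O` with `(Rf v)^[N * n] x = φ.symm y`; `(rat A B)^[n] (φ x) = φ (((Rf v)^[N])^[n] x)` (`cj`, induction) `= y` (`Function.iterate_mul`).
-/

set_option autoImplicit false

open Filter Topology Polynomial Metric Set MeasureTheory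

namespace Pool.Agent.H66.UX

open Pool.Agent.H44.Fatou (rat rat_continuous rat_coe rat_coe_of_ne pt crit_coe)
open Pool.Agent.H32.BT Pool.Agent.H79.Eul Pool.Agent.H79.Par
open Pool.Agent.H35.EX Pool.Agent.H44.RR Pool.Agent.H56.HR Pool.Agent.H44.RC Pool.Agent.H47.RJ
open Pool.Agent.H47.NM Pool.Agent.H47.NN Pool.Agent.H44.ND Pool.Agent.H79.ES Pool.Agent.H44.RG
open Pool.Agent.H44.CP Pool.Agent.H47.PS Pool.Agent.H64.NC
open Pool.Agent.H61.TT (gg dg ww RatD)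
open Pool.Agent.H64.JS (KJ)
open Pool.Agent.H66.IL (em)

variable {d D : ℕ} {v : E d} {q : ℂ} {N : ℕ} {φ : OnePoint ℂ ≃ₜ OnePoint ℂ} {A B : Polynomial ℂ}

private theorem em_ne {q w : ℂ} (hw : w ≠ 0) : em q w = ((q + 1 / w : ℂ) : OnePoint ℂ) := by
  unfold Pool.Agent.H66.IL.em
  rw [if_neg hw]

private theorem em_zero {q : ℂ} : em q 0 = OnePoint.infty := by
  unfold Pool.Agent.H66.IL.em
  rw [if_pos rfl]

private theorem rq_loc (h : RQ v q N φ A B D) {w y : ℂ} (hB : B.eval w ≠ 0) (hw : w ≠ 0)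
    (hy : (Rf v)^[N] ((q + 1 / w : ℂ) : OnePoint ℂ) = (y : OnePoint ℂ)) :
    y ≠ q ∧ gg A B w = 1 / (y - q) := by
  have h1 := rq_gg h hB
  rw [em_ne hw, hy] at h1
  by_cases g0 : gg A B w = 0
  · rw [g0, em_zero] at h1
    exact absurd h1 (OnePoint.coe_ne_infty y)
  · rw [em_ne g0] at h1
    have h2 : y = q + 1 / gg A B w := OnePoint.coe_injective h1
    have h3 : y - q = 1 / gg A B w := by
      rw [h2]
      ring
    refine ⟨?_, ?_⟩
    · intro h4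
      rw [h4, sub_self] at h3
      exact one_div_ne_zero g0 h3.symm
    · rw [h3, one_div_one_div]

private theorem rq_B (h : RQ v q N φ A B D) : B ≠ 0 := by
  intro h0
  have h1 := h.rt.cop
  rw [h0, isCoprime_zero_right] at h1
  have h2 := h.rt.deg
  have h3 := h.rt.hd
  rw [h0, Polynomial.natDegree_zero, Polynomial.natDegree_eq_zero_of_isUnit h1] at h2
  simp at h2
  omega

/-- the derivative in the chart -/
private theorem dg_chart {G : ℂ → ℂ} {w : ℂ} (hB : B.eval w ≠ 0) (hw : w ≠ 0)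
    (hG : DifferentiableAt ℂ G (q + 1 / w)) (hne : G (q + 1 / w) ≠ q)
    (he : gg A B =ᶠ[𝓝 w] fun u => 1 / (G (q + 1 / u) - q)) :
    dg A B w = deriv G (q + 1 / w) * (1 / ((G (q + 1 / w) - q) ^ 2 * w ^ 2)) := by
  have h1 : HasDerivAt (gg A B) (dg A B w) w := Pool.Agent.H61.TT.hasDerivAt_gg hB
  have h2 : HasDerivAt (fun u : ℂ => q + 1 / u) (-(w ^ 2)⁻¹) w := by
    have h3 := (hasDerivAt_inv hw).const_add q
    simpa only [one_div] using h3
  have h3 : HasDerivAt (fun u : ℂ => G (q + 1 / u)) (deriv G (q + 1 / w) * -(w ^ 2)⁻¹) w :=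
    HasDerivAt.comp w hG.hasDerivAt h2
  have h4 : G (q + 1 / w) - q ≠ 0 := sub_ne_zero.2 hne
  have h5 : HasDerivAt (fun u : ℂ => (G (q + 1 / u) - q)⁻¹)
      (-(deriv G (q + 1 / w) * -(w ^ 2)⁻¹) / (G (q + 1 / w) - q) ^ 2) w := (h3.sub_const q).fun_inv h4
  have h6 : HasDerivAt (gg A B) (-(deriv G (q + 1 / w) * -(w ^ 2)⁻¹) / (G (q + 1 / w) - q) ^ 2) w := by
    refine h5.congr_of_eventuallyEq ?_
    simpa only [one_div] using he
  rw [h1.unique h6]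
  field_simp

theorem rq_sim (hd : 2 ≤ d) (hcop : IsCoprime (pol v.1) (pol v.2))
    (hdeg : max (pol v.1).natDegree (pol v.2).natDegree = d) (hup : ¬ Up v) (hJ : JS (Rf v) = univ)
    (h0 : Rf v ((0 : ℂ) : OnePoint ℂ) = ((0 : ℂ) : OnePoint ℂ))
    (h1 : Rf v ((1 : ℂ) : OnePoint ℂ) = ((1 : ℂ) : OnePoint ℂ)) (hi : Rf v OnePoint.infty = OnePoint.infty)
    (h : RQ v q N φ A B D) (hq : (Rf v)^[N] (q : OnePoint ℂ) = (q : OnePoint ℂ)) (hP : (q : OnePoint ℂ) ∉ PCs v) {z : ℂ}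
    (hz : B.eval z ≠ 0) (hw : (ww A B).eval z = 0) : (derivative (ww A B)).eval z ≠ 0 := by
  have hinf : ∀ n, (Rf v)^[n] OnePoint.infty = OnePoint.infty := fun n => Function.iterate_fixed hi n
  have hcr : IsCrit (rat A B) (z : OnePoint ℂ) := by
    refine crit_of_wr h.rt.cop ?_ hw
    have h2 := h.rt.deg
    have h3 := h.rt.hd
    omega
  obtain ⟨z', hz1, -, -, j, hj, hcj⟩ := rq_ci hcop hJ h hq hP hcr
  have hzz : z' = z := (OnePoint.coe_injective hz1).symm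
  rw [hzz] at hcj
  have hz0 : z ≠ 0 := by
    intro h2
    rw [h2, em_zero, hinf j] at hcj
    obtain ⟨y, hy⟩ := Pool.Agent.H66.UP.crit_pl hd hcop hdeg hup hJ hi hcj
    exact OnePoint.infty_ne_coe y hy
  obtain ⟨x0, hx0⟩ : ∃ x0 : ℂ, x0 = q + 1 / z := ⟨_, rfl⟩
  rw [em_ne hz0, ← hx0] at hcj
  have hxN : (Rf v)^[N] (x0 : OnePoint ℂ) ≠ OnePoint.infty := by
    intro h2
    have h3 : (Rf v)^[N - j] ((Rf v)^[j] (x0 : OnePoint ℂ)) = OnePoint.infty := by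
      rw [← Function.iterate_add_apply]
      have h4 : N - j + j = N := by omega
      rw [h4, h2]
    have h4 : (Rf v)^[N - j + 1] ((Rf v)^[j] (x0 : OnePoint ℂ)) = OnePoint.infty := by
      rw [Function.iterate_succ_apply', h3, hi]
    exact not_pre hd hcop hdeg hup hcj (by rw [hJ]; exact mem_univ _) (N - j) (N - j + 1) (Nat.lt_succ_self _)
      (by rw [h3, h4])
  obtain ⟨hf1, hf2⟩ := fin_orbs (a := pol v.1) (b := pol v.2) hi (n := N) (s := x0) hxN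
  have hcj' : IsCrit (Rf v) (((gg (pol v.1) (pol v.2))^[j] x0 : ℂ) : OnePoint ℂ) := by
    have h2 := hf2 j hj.le
    have h3 : (Rf v)^[j] (x0 : OnePoint ℂ) = (((gg (pol v.1) (pol v.2))^[j] x0 : ℂ) : OnePoint ℂ) := h2
    rw [← h3]
    exact hcj
  have hCr : Pool.Agent.H18.UP.Cr (pol v.1) (pol v.2) ((gg (pol v.1) (pol v.2))^[j] x0) := ⟨hf1 j hj, crit_coe hcj'⟩
  obtain ⟨hA, hA1, hA2, hA3⟩ := sim_it hd hcop hdeg hup hJ h0 h1 hi hxN hj hCr
  obtain ⟨G, hG⟩ : ∃ G : ℂ → ℂ, G = (gg (pol v.1) (pol v.2))^[N] := ⟨_, rfl⟩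
  rw [← hG] at hA hA1 hA2 hA3
  have hcx : ContinuousAt (fun w : ℂ => q + 1 / w) z := by
    refine continuousAt_const.add ?_
    exact continuousAt_const.div continuousAt_id hz0
  have hcx' : Tendsto (fun w : ℂ => q + 1 / w) (𝓝 z) (𝓝 x0) := by
    rw [hx0]
    exact hcx
  have e1 : ∀ᶠ w in 𝓝 z, w ≠ 0 := eventually_ne_nhds hz0
  have e2 : ∀ᶠ w in 𝓝 z, B.eval w ≠ 0 := B.continuous.continuousAt.eventually_ne hz
  have e3 : ∀ᶠ w in 𝓝 z, (Rf v)^[N] ((q + 1 / w : ℂ) : OnePoint ℂ) = ((G (q + 1 / w) : ℂ) : OnePoint ℂ) :=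
    hcx'.eventually hA3
  have e4 : ∀ᶠ w in 𝓝 z, AnalyticAt ℂ G (q + 1 / w) := hcx'.eventually hA.eventually_analyticAt
  have e5 : ∀ᶠ w in 𝓝 z, G (q + 1 / w) ≠ q ∧ gg A B w = 1 / (G (q + 1 / w) - q) := by
    filter_upwards [e1, e2, e3] with w h1 h2 h3
    exact rq_loc h h2 h1 h3
  have e6 : dg A B =ᶠ[𝓝 z] fun w => deriv G (q + 1 / w) * (1 / ((G (q + 1 / w) - q) ^ 2 * w ^ 2)) := by
    filter_upwards [e1, e2, e4, e5, e5.eventually_nhds] with w h1 h2 h4 h5 h6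
    refine dg_chart h2 h1 h4.differentiableAt h5.1 ?_
    filter_upwards [h6] with u hu
    exact hu.2
  have hne : G x0 ≠ q := by
    have h2 := e5.self_of_nhds.1
    rwa [← hx0] at h2
  have k1 : HasDerivAt (fun u : ℂ => q + 1 / u) (-(z ^ 2)⁻¹) z := by
    have h3 := (hasDerivAt_inv hz0).const_add q
    simpa only [one_div] using h3
  have k2 : HasDerivAt (fun u : ℂ => deriv G (q + 1 / u)) (deriv (deriv G) x0 * -(z ^ 2)⁻¹) z := by
    have h3 : HasDerivAt (deriv G) (deriv (deriv G) x0) (q + 1 / z) := by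
      rw [← hx0]
      exact hA.deriv.differentiableAt.hasDerivAt
    exact HasDerivAt.comp z h3 k1
  have k3 : DifferentiableAt ℂ (fun u : ℂ => 1 / ((G (q + 1 / u) - q) ^ 2 * u ^ 2)) z := by
    have h3 : DifferentiableAt ℂ (fun u : ℂ => G (q + 1 / u)) z := by
      have h4 : DifferentiableAt ℂ G (q + 1 / z) := by
        rw [← hx0]
        exact hA.differentiableAt
      exact DifferentiableAt.comp z h4 k1.differentiableAt
    have h5 : (G (q + 1 / z) - q) ^ 2 * z ^ 2 ≠ 0 := by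
      rw [← hx0]
      exact mul_ne_zero (pow_ne_zero 2 (sub_ne_zero.2 hne)) (pow_ne_zero 2 hz0)
    exact (differentiableAt_const 1).div (((h3.sub_const q).pow 2).mul (differentiableAt_id.pow 2)) h5
  have k4 := k2.mul k3.hasDerivAt
  have k5 : HasDerivAt (dg A B) (deriv (deriv G) x0 * -(z ^ 2)⁻¹ * (1 / ((G (q + 1 / z) - q) ^ 2 * z ^ 2)) +
      deriv G (q + 1 / z) * deriv (fun u : ℂ => 1 / ((G (q + 1 / u) - q) ^ 2 * u ^ 2)) z) z :=
    k4.congr_of_eventuallyEq e6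
  rw [← hx0, hA1, zero_mul, add_zero] at k5
  intro hww
  have k6 : HasDerivAt (dg A B) 0 z := by
    have h2 : HasDerivAt (fun u : ℂ => (ww A B).eval u) ((derivative (ww A B)).eval z) z := (ww A B).hasDerivAt z
    have h3 : HasDerivAt (fun u : ℂ => B.eval u ^ 2) _ z := (B.hasDerivAt z).pow 2
    have h4 := h2.div h3 (pow_ne_zero 2 hz)
    rw [hww, hw, zero_mul, zero_mul, sub_zero, zero_div] at h4
    exact h4
  have k7 := k5.unique k6
  refine absurd k7 ?_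
  refine mul_ne_zero (mul_ne_zero hA2 (neg_ne_zero.2 (inv_ne_zero (pow_ne_zero 2 hz0)))) (one_div_ne_zero ?_)
  exact mul_ne_zero (pow_ne_zero 2 (sub_ne_zero.2 hne)) (pow_ne_zero 2 hz0)

theorem rq_con (hd : 2 ≤ d) (hcop : IsCoprime (pol v.1) (pol v.2))
    (hdeg : max (pol v.1).natDegree (pol v.2).natDegree = d) (hup : ¬ Up v) (hJ : JS (Rf v) = univ)
    (hi : Rf v OnePoint.infty = OnePoint.infty) (h : RQ v q N φ A B D) (hN : 1 ≤ N)
    (hq : (Rf v)^[N] (q : OnePoint ℂ) = (q : OnePoint ℂ)) :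
    ∃ L0 θ : ℝ, 0 < L0 ∧ 0 < θ ∧ θ < 1 ∧ ∀ z : ℂ, L0 ≤ ‖z‖ → B.eval z ≠ 0 ∧ ‖dg A B z‖ ≤ θ := by
  obtain ⟨hA, hA1, hA2, hA3⟩ := der_q hd hcop hdeg hup hJ hi hN hq
  obtain ⟨G, hG⟩ : ∃ G : ℂ → ℂ, G = (gg (pol v.1) (pol v.2))^[N] := ⟨_, rfl⟩
  rw [← hG] at hA hA1 hA2 hA3
  obtain ⟨lam, hlam⟩ : ∃ lam : ℂ, lam = deriv G q := ⟨_, rfl⟩
  rw [← hlam] at hA2
  have hl0 : lam ≠ 0 := by
    intro h2
    rw [h2, norm_zero] at hA2
    linarith
  have t0 : Tendsto (fun w : ℂ => 1 / w) (Bornology.cobounded ℂ) (𝓝 0) := by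
    simpa only [one_div] using tendsto_inv₀_cobounded (α := ℂ)
  have t1 : Tendsto (fun w : ℂ => q + 1 / w) (Bornology.cobounded ℂ) (𝓝 q) := by
    have h2 := (tendsto_const_nhds (x := q)).add t0
    rwa [add_zero] at h2
  have e1 : ∀ᶠ w : ℂ in Bornology.cobounded ℂ, w ≠ 0 := by
    have h2 : ({0}ᶜ : Set ℂ) ∈ Bornology.cobounded ℂ := Bornology.isBounded_def.1 Bornology.isBounded_singleton
    filter_upwards [h2] with w hw
    exact hw
  have e2 : ∀ᶠ w : ℂ in Bornology.cobounded ℂ, B.eval w ≠ 0 := by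
    have h2 : Set.Finite {w : ℂ | B.eval w = 0} := by
      have h3 := B.rootSet_finite ℂ
      refine (Multiset.finite_toSet B.roots).subset ?_
      intro w hw
      exact (Polynomial.mem_roots (rq_B h)).2 hw
    have h3 := Bornology.isBounded_def.1 h2.isBounded
    filter_upwards [h3] with w hw
    exact hw
  have e3 : ∀ᶠ w : ℂ in Bornology.cobounded ℂ,
      (Rf v)^[N] ((q + 1 / w : ℂ) : OnePoint ℂ) = ((G (q + 1 / w) : ℂ) : OnePoint ℂ) := t1.eventually hA3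
  have e4 : ∀ᶠ w : ℂ in Bornology.cobounded ℂ, AnalyticAt ℂ G (q + 1 / w) := t1.eventually hA.eventually_analyticAt
  have e5 : ∀ᶠ w : ℂ in Bornology.cobounded ℂ, G (q + 1 / w) ≠ q ∧ gg A B w = 1 / (G (q + 1 / w) - q) := by
    filter_upwards [e1, e2, e3] with w h1 h2 h3
    exact rq_loc h h2 h1 h3
  obtain ⟨L1, -, hL1⟩ := (Filter.hasBasis_cobounded_norm (E := ℂ)).eventually_iff.1 e5
  have e6 : ∀ᶠ w : ℂ in Bornology.cobounded ℂ,
      dg A B w = deriv G (q + 1 / w) * (1 / ((G (q + 1 / w) - q) ^ 2 * w ^ 2)) := by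
    have h6 : ∀ᶠ w : ℂ in Bornology.cobounded ℂ, L1 < ‖w‖ := by
      refine (Filter.hasBasis_cobounded_norm (E := ℂ)).eventually_iff.2 ⟨L1 + 1, trivial, ?_⟩
      intro w hw
      have hw' : L1 + 1 ≤ ‖w‖ := hw
      show L1 < ‖w‖
      linarith
    filter_upwards [e1, e2, e4, e5, h6] with w h1 h2 h4 h5 h6
    refine dg_chart h2 h1 h4.differentiableAt h5.1 ?_
    have h7 : ∀ᶠ u : ℂ in 𝓝 w, L1 < ‖u‖ := continuous_norm.continuousAt.eventually (lt_mem_nhds h6)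
    filter_upwards [h7] with u hu
    exact (hL1 (show L1 ≤ ‖u‖ from hu.le)).2
  have t2 : Tendsto (fun w : ℂ => q + 1 / w) (Bornology.cobounded ℂ) (𝓝[≠] q) := by
    refine tendsto_nhdsWithin_iff.2 ⟨t1, ?_⟩
    filter_upwards [e1] with w hw
    intro h2
    have h3 : q + 1 / w = q := h2
    have h4 : 1 / w = 0 := by
      have := congrArg (fun t => t - q) h3
      simpa using this
    exact one_div_ne_zero hw h4
  have t3 : Tendsto (fun w : ℂ => (G (q + 1 / w) - q) * w) (Bornology.cobounded ℂ) (𝓝 lam) := by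
    have h2 : HasDerivAt G lam q := by
      rw [hlam]
      exact hA.differentiableAt.hasDerivAt
    have h3 := (hasDerivAt_iff_tendsto_slope.1 h2).comp t2
    refine h3.congr' ?_
    filter_upwards [e1] with w hw
    show slope G q (q + 1 / w) = _
    rw [slope_def_field, hA1]
    field_simp
    ring
  have t4 : Tendsto (fun w : ℂ => deriv G (q + 1 / w)) (Bornology.cobounded ℂ) (𝓝 lam) := by
    rw [hlam]
    exact (hA.deriv.continuousAt.tendsto).comp t1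
  have t5 : Tendsto (fun w : ℂ => deriv G (q + 1 / w) * (1 / ((G (q + 1 / w) - q) * w) ^ 2)) (Bornology.cobounded ℂ)
      (𝓝 (lam * (1 / lam ^ 2))) := by
    refine t4.mul ?_
    exact tendsto_const_nhds.div (t3.pow 2) (pow_ne_zero 2 hl0)
  have t6 : Tendsto (fun w : ℂ => ‖dg A B w‖) (Bornology.cobounded ℂ) (𝓝 (‖lam‖⁻¹)) := by
    have h2 : ‖lam‖⁻¹ = ‖lam * (1 / lam ^ 2)‖ := by
      rw [← norm_inv]
      congr 1
      field_simp
    rw [h2]
    refine (t5.norm).congr' ?_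
    filter_upwards [e6] with w hw
    rw [hw, mul_pow]
  obtain ⟨θ, hθ⟩ : ∃ θ : ℝ, θ = (1 + ‖lam‖⁻¹) / 2 := ⟨_, rfl⟩
  have hlp : 0 < ‖lam‖⁻¹ := inv_pos.2 (by linarith)
  have hl1 : ‖lam‖⁻¹ < 1 := inv_lt_one_of_one_lt₀ hA2
  have e7 : ∀ᶠ w : ℂ in Bornology.cobounded ℂ, ‖dg A B w‖ < θ :=
    t6.eventually (gt_mem_nhds (by rw [hθ]; linarith))
  obtain ⟨L2, -, hL2⟩ := (Filter.hasBasis_cobounded_norm (E := ℂ)).eventually_iff.1 (e2.and e7)
  refine ⟨max L2 1, θ, lt_of_lt_of_le one_pos (le_max_right _ _), by rw [hθ]; linarith, by rw [hθ]; linarith, ?_⟩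
  intro z hz
  have h2 := hL2 (show L2 ≤ ‖z‖ from (le_max_left _ _).trans hz)
  exact ⟨h2.1, h2.2.le⟩

theorem rq_leo (hd : 2 ≤ d) (hcop : IsCoprime (pol v.1) (pol v.2))
    (hdeg : max (pol v.1).natDegree (pol v.2).natDegree = d) (hup : ¬ Up v) (hJ : JS (Rf v) = univ)
    (h : RQ v q N φ A B D) (hN : 1 ≤ N) {O : Set (OnePoint ℂ)} (hO : IsOpen O) (hn : O.Nonempty) :
    ∃ n0 : ℕ, ∀ n ≥ n0, ∀ y, ∃ x ∈ O, (rat A B)^[n] x = y := by
  have hne : (φ ⁻¹' O).Nonempty := by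
    obtain ⟨y, hy⟩ := hn
    exact ⟨φ.symm y, by rw [mem_preimage, φ.apply_symm_apply]; exact hy⟩
  obtain ⟨n0, h0⟩ := leo_s hd hcop hdeg hup hJ (hO.preimage φ.continuous) hne
  have key : ∀ (n : ℕ) (x : OnePoint ℂ), (rat A B)^[n] (φ x) = φ (((Rf v)^[N])^[n] x) := by
    intro n
    induction n with
    | zero => intro x; rfl
    | succ n ih =>
      intro x
      rw [Function.iterate_succ_apply', Function.iterate_succ_apply', ih, h.cj]
  refine ⟨n0, fun n hn y => ?_⟩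
  obtain ⟨x, hx1, hx2⟩ := h0 (N * n) (hn.le.trans (Nat.le_mul_of_pos_left n hN)) (φ.symm y)
  refine ⟨φ x, hx1, ?_⟩
  rw [key, ← Function.iterate_mul, hx2, φ.apply_symm_apply]

end Pool.Agent.H66.UX
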